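import Pool.Agent.H19.GR.Hat

set_option autoImplicit false

/-! The chain of levels. -/

namespace Pool.Agent.H19.GR

open Pool.Agent.Results.MP_397c7d_co.SemilatticeIdentities (LTerm code code_inj)

/-- A finite connected rooted graph with a regular closed assignment. -/
structure Rooted where
  V : Type
  fin : Finite V
  G : SimpleGraph V
  r : V
  X : ℕ → Set (Set V)
  reg : Reg G X
  conn : Conn G Set.univ
  acyc : Acyc G

/-- All connected sets through the root are in the values of the terms in `T`. -/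
def Pos (T : Set LTerm) (R : Rooted) : Prop :=
  ∀ Z, Conn R.G Z → R.r ∈ Z → ∀ σ ∈ T, Z ∈ ev R.G R.X σ

lemma unit_eq {Y : Set Unit} (h : Y.Nonempty) : Y = Set.univ := by
  obtain ⟨x, hx⟩ := h
  ext y
  constructor
  · intro _; trivial
  · intro _
    have : y = x := Subsingleton.elim _ _
    rw [this]; exact hx

lemma conn_univ_unit (G : SimpleGraph Unit) : Conn G (Set.univ : Set Unit) := by
  have h1 := conn_singleton (G := G) ()
  have h2 : ({()} : Set Unit) = Set.univ := unit_eq ⟨(), rfl⟩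
  rw [← h2]
  exact h1

lemma du_empty {V : Type*} {Y : Set V} (h : DU (∅ : Set (Set V)) Y) : Y = ∅ := by
  cases h with
  | empty => rfl
  | add _ h _ => exact absurd h (Set.notMem_empty _)

lemma reg_empty {V : Type*} (G : SimpleGraph V) : Reg G (fun _ => (∅ : Set (Set V))) := by
  intro n
  apply Set.eq_empty_of_forall_notMem
  rintro Y ⟨hY, hD⟩
  have h1 : DU (∅ : Set (Set V)) Y := hD.mono (op_subset _)
  exact hY.ne_empty (du_empty h1)

lemma ev_empty {V : Type*} (G : SimpleGraph V) (t : LTerm) :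
    ev G (fun _ => (∅ : Set (Set V))) t = ∅ := by
  induction t with
  | var n => rfl
  | sup a b iha ihb =>
    simp only [ev]
    rw [iha, ihb, Set.union_empty]
    apply Set.eq_empty_of_forall_notMem
    rintro Y ⟨hY, hD⟩
    exact hY.ne_empty (du_empty hD)
  | inf a b iha ihb =>
    simp only [ev]
    rw [iha, ihb, Set.inter_empty]
    apply Set.eq_empty_of_forall_notMem
    rintro Y ⟨hY, hD⟩
    have h1 : DU (∅ : Set (Set V)) Y := hD.mono (op_subset _)
    exact hY.ne_empty (du_empty h1)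

lemma acyc_bot {V : Type*} : Acyc (⊥ : SimpleGraph V) :=
  fun _ _ h => absurd h (fun h' => h')

/-- One vertex, in no variable. -/
def dummy : Rooted where
  V := Unit
  fin := inferInstance
  G := ⊥
  r := ()
  X := fun _ => ∅
  reg := reg_empty _
  conn := conn_univ_unit _
  acyc := acyc_bot

lemma isOp_univ_unit (G : SimpleGraph Unit) : IsOp G {Y : Set Unit | Conn G Y} := by
  intro Y hY
  refine ⟨hY, fun hD => ?_⟩
  have h1 : () ∈ Y := by rw [unit_eq hY.1]; trivial
  obtain ⟨Z, hZ, _, _, _⟩ := hD.extract h1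
  exact hZ.2 hZ.1

lemma cl_conn {V : Type*} {G : SimpleGraph V} {F : Set (Set V)} {Y : Set V}
    (h : Y ∈ cl G F) : Conn G Y := h.1

/-- One vertex, in all variables. -/
def full : Rooted where
  V := Unit
  fin := inferInstance
  G := ⊥
  r := ()
  X := fun _ => {Y | Conn ⊥ Y}
  reg := by
    intro n
    apply Set.Subset.antisymm
    · intro Y hY
      exact cl_conn hY
    · intro Y hY
      exact ⟨hY, .single (isOp_univ_unit _ hY)⟩
  conn := conn_univ_unit _
  acyc := acyc_bot

lemma full_pos (T : Set LTerm) : Pos T full := by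
  intro Z hZ _ σ _
  exact subset_ev_of_var (isOp_univ_unit _) (fun n => le_rfl) σ hZ

/-- Attach a copy of `K` at every vertex of `R`. -/
def pend (R K : Rooted) : Rooted where
  V := R.V ⊕ (Σ _ : R.V, K.V)
  fin := by
    have := R.fin
    have := K.fin
    infer_instance
  G := attach R.G (fun _ : R.V => K.G) (fun _ => K.r) id
  r := .inl R.r
  X := fun n => hat R.G (fun _ : R.V => K.G) (fun _ => K.r) id (R.X n) (fun _ => K.X n)
  reg := by
    have := R.fin
    exact reg_hat R.reg (fun _ => K.reg)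
  conn := by
    have h : (Set.univ : Set (R.V ⊕ (Σ _ : R.V, K.V))) =
        Sum.inl '' Set.univ ∪ ⋃ i, inB i '' Set.univ := by
      rw [decomp (Set.univ : Set (R.V ⊕ (Σ _ : R.V, K.V)))]
      rfl
    rw [h]
    exact conn_mk R.conn (fun i _ => ⟨K.conn, trivial, trivial⟩)
  acyc := acyc_attach R.acyc (fun _ => K.acyc)

lemma pend_ev (R K : Rooted) (t : LTerm) : ev (pend R K).G (pend R K).X t =
    hat R.G (fun _ : R.V => K.G) (fun _ => K.r) id (ev R.G R.X t) (fun _ => ev K.G K.X t) := by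
  have := R.fin
  exact ev_hat R.reg (fun _ => K.reg) t

lemma pend_pos {R K : Rooted} {T : Set LTerm} (hR : Pos T R) (hK : Pos T K) :
    Pos T (pend R K) := by
  intro Z hZ hr σ hσ
  rw [pend_ev]
  have hne : (base Z).Nonempty := ⟨R.r, hr⟩
  refine ⟨hZ, Or.inr (hR _ (conn_base hZ hne) hr σ hσ), fun i => ?_⟩
  rcases Set.eq_empty_or_nonempty (part Z i) with h | h
  · exact Or.inl h
  · exact Or.inr (hK _ (conn_part hZ h) (gate_base hZ h hne).1 σ hσ)

/-- The conditions on the distinguished sets. -/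
def Good (L : Set LTerm) (N : ℕ) (R : Rooted) (T : LTerm → Set R.V) : Prop :=
  (∀ n, {R.r} ∈ R.X n) ∧
  (∀ u ∈ L, code u < N → R.r ∈ T u ∧ Conn R.G (T u) ∧ T u ∉ ev R.G R.X u) ∧
  (∀ u ∈ L, ∀ v ∈ L, code v < code u → code u < N → ∀ Z ⊆ T u, Conn R.G Z → R.r ∈ Z →
    DU (ev R.G R.X u) (T u \ Z) →
      T v ⊆ Z ∧ DU {Y | Conn R.G Y ∧ Y ∉ ev R.G R.X u} (Z \ T v)) ∧
  (∀ u ∈ L, code u + 1 = N → T u = Set.univ)

lemma image_sdiff_inl {A B : Type*} (P Q : Set A) :
    (Sum.inl '' P : Set (A ⊕ B)) \ Sum.inl '' Q = Sum.inl '' (P \ Q) := by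
  rw [Set.image_sdiff Sum.inl_injective]

lemma pair_top {R K : Rooted} {w : LTerm} (hK : Set.univ ∉ ev K.G K.X w) (P : Set R.V)
    {Z : Set (R.V ⊕ (Σ _ : R.V, K.V))}
    (hZ : Conn (attach R.G (fun _ : R.V => K.G) (fun _ => K.r) id) Z)
    (hrZ : Sum.inl R.r ∈ Z)
    (hD : DU (hat R.G (fun _ : R.V => K.G) (fun _ => K.r) id (ev R.G R.X w)
      (fun _ => ev K.G K.X w)) (Set.univ \ Z)) :
    Sum.inl '' P ⊆ Z ∧
      DU {Y | Conn (attach R.G (fun _ : R.V => K.G) (fun _ => K.r) id) Y ∧
        Y ∉ hat R.G (fun _ : R.V => K.G) (fun _ => K.r) id (ev R.G R.X w)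
          (fun _ => ev K.G K.X w)} (Z \ Sum.inl '' P) := by
  have hne : (base Z).Nonempty := ⟨R.r, hrZ⟩
  have hDh : ∀ h, DU (ev K.G K.X w) (Set.univ \ part Z h) := by
    intro h
    have := hD.part (i := h) (E := ev K.G K.X w) (fun Y hY _ => hY.2.2 h)
    rwa [part_sdiff] at this
  have hbad : ¬ DU (ev K.G K.X w) (Set.univ : Set K.V) :=
    fun h => hK (K.reg.closed w ⟨K.conn, h⟩)
  have hpart : ∀ h, (part Z h).Nonempty ∧ part Z h ∉ ev K.G K.X w := by
    intro h
    constructor
    · by_contra hcon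
      rw [Set.not_nonempty_iff_eq_empty] at hcon
      have := hDh h
      rw [hcon, Set.sdiff_empty] at this
      exact hbad this
    · intro hcon
      have h5 := (DU.single hcon).union (hDh h) disjoint_sdiff_self_right
      rw [Set.union_sdiff_cancel (Set.subset_univ _)] at h5
      exact hbad h5
  have hgate : ∀ h, K.r ∈ part Z h ∧ h ∈ base Z := fun h =>
    gate_base hZ (hpart h).1 hne
  have hconnpart : ∀ h, Conn K.G (part Z h) := fun h => conn_part hZ (hpart h).1
  refine ⟨?_, ?_⟩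
  · rintro _ ⟨h, _, rfl⟩
    exact (hgate h).2
  · let blk : R.V → Set (R.V ⊕ (Σ _ : R.V, K.V)) := fun h =>
      {x | (x = Sum.inl h ∧ h ∉ P) ∨ x ∈ inB h '' part Z h}
    have hblk : (Z \ Sum.inl '' P : Set (R.V ⊕ (Σ _ : R.V, K.V))) = ⋃ h, blk h := by
      ext x
      rw [Set.mem_iUnion]
      constructor
      · rintro ⟨hx, hx'⟩
        rcases x with a | ⟨i, b⟩
        · exact ⟨a, Or.inl ⟨rfl, fun h => hx' ⟨a, h, rfl⟩⟩⟩
        · exact ⟨i, Or.inr ⟨b, hx, rfl⟩⟩
      · rintro ⟨h, ⟨rfl, h'⟩ | ⟨b, hb, rfl⟩⟩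
        · refine ⟨(hgate h).2, ?_⟩
          rintro ⟨a, ha, ha'⟩
          rw [Sum.inl_injective ha'] at ha
          exact h' ha
        · refine ⟨hb, ?_⟩
          rintro ⟨a, _, ha'⟩
          exact Sum.inl_ne_inr ha'
    have hfin := R.fin
    rw [hblk]
    refine DU.iUnion blk (fun h => DU.single ⟨?_, ?_⟩) ?_
    · by_cases hT : h ∈ P
      · have h5 : blk h = inB h '' part Z h := by
          ext x
          constructor
          · rintro (⟨_, h'⟩ | h')
            · exact absurd hT h'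
            · exact h'
          · intro h'
            exact Or.inr h'
        rw [h5]
        exact (conn_inB h _).2 (hconnpart h)
      · have h5 : blk h = {Sum.inl h} ∪ inB h '' part Z h := by
          ext x
          constructor
          · rintro (⟨h', _⟩ | h')
            · exact Or.inl h'
            · exact Or.inr h'
          · rintro (h' | h')
            · exact Or.inl ⟨h', hT⟩
            · exact Or.inr h'
        rw [h5]
        exact (conn_singleton _).union ((conn_inB h _).2 (hconnpart h)) rfl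
          ⟨K.r, (hgate h).1, rfl⟩ (adj_bridge h)
    · intro hcon
      have h5 : part (blk h) h = part Z h := by
        ext b
        constructor
        · rintro (⟨h', _⟩ | ⟨b', hb', h'⟩)
          · exact absurd h' Sum.inr_ne_inl
          · rw [← inB_inj h h']; exact hb'
        · intro h'
          exact Or.inr ⟨b, h', rfl⟩
      rcases hcon.2.2 h with h6 | h6
      · rw [h5] at h6
        exact (hpart h).1.ne_empty h6
      · rw [h5] at h6
        exact (hpart h).2 h6
    · intro i j hij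
      rw [Set.disjoint_left]
      rintro x (⟨rfl, _⟩ | ⟨b, _, rfl⟩) (⟨h', _⟩ | ⟨b', _, h'⟩)
      · exact hij (Sum.inl_injective h')
      · exact Sum.inr_ne_inl h'
      · exact Sum.inr_ne_inl h'
      · have h5 := Sum.inr_injective h'
        rw [Sigma.mk.injEq] at h5
        exact hij h5.1.symm

lemma pair_old {R K : Rooted} {w : LTerm} {P Q : Set R.V}
    (IH : ∀ Z ⊆ Q, Conn R.G Z → R.r ∈ Z → DU (ev R.G R.X w) (Q \ Z) →
      P ⊆ Z ∧ DU {Y | Conn R.G Y ∧ Y ∉ ev R.G R.X w} (Z \ P))
    {Z : Set (R.V ⊕ (Σ _ : R.V, K.V))} (hZT : Z ⊆ Sum.inl '' Q)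
    (hZ : Conn (attach R.G (fun _ : R.V => K.G) (fun _ => K.r) id) Z)
    (hrZ : Sum.inl R.r ∈ Z)
    (hD : DU (hat R.G (fun _ : R.V => K.G) (fun _ => K.r) id (ev R.G R.X w)
      (fun _ => ev K.G K.X w)) (Sum.inl '' Q \ Z)) :
    Sum.inl '' P ⊆ Z ∧
      DU {Y | Conn (attach R.G (fun _ : R.V => K.G) (fun _ => K.r) id) Y ∧
        Y ∉ hat R.G (fun _ : R.V => K.G) (fun _ => K.r) id (ev R.G R.X w)
          (fun _ => ev K.G K.X w)} (Z \ Sum.inl '' P) := by
  have hZ0 : Z = Sum.inl '' base Z := by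
    ext x
    constructor
    · intro hx
      obtain ⟨a, _, rfl⟩ := hZT hx
      exact ⟨a, hx, rfl⟩
    · rintro ⟨a, ha, rfl⟩
      exact ha
  have hZ0T : base Z ⊆ Q := by
    intro a ha
    obtain ⟨a', ha', h⟩ := hZT ha
    rw [← Sum.inl_injective h]; exact ha'
  have hD' : DU (ev R.G R.X w) (Q \ base Z) := by
    have := hD.base (E0 := ev R.G R.X w) (fun Y hY _ => hY.2.1)
    rwa [base_sdiff, base_inl] at this
  have hne : (base Z).Nonempty := ⟨R.r, hrZ⟩
  obtain ⟨h5, h6⟩ := IH (base Z) hZ0T (conn_base hZ hne) hrZ hD'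
  refine ⟨?_, ?_⟩
  · rw [hZ0]
    exact Set.image_mono h5
  · rw [hZ0, image_sdiff_inl]
    refine h6.image _ Sum.inl_injective ?_
    rintro Y ⟨hY, hYE⟩ _
    exact ⟨(conn_inl Y).2 hY, fun h => hYE ((inl_mem_hat hY).1 h)⟩

lemma good_pend {L : Set LTerm} {N : ℕ} {R : Rooted} {T : LTerm → Set R.V}
    (h : Good L N R T) {K : Rooted} {u : LTerm} (hu : code u = N)
    (hK : Set.univ ∉ ev K.G K.X u) {T' : LTerm → Set (R.V ⊕ (Σ _ : R.V, K.V))}
    (hT1 : T' u = Set.univ) (hT2 : ∀ v, v ≠ u → T' v = Sum.inl '' T v) :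
    Good L (N + 1) (pend R K) T' := by
  obtain ⟨h1, h2, h3, h4⟩ := h
  have hlt : ∀ v, v ≠ u → code v < N + 1 → code v < N := by
    intro v hv hc
    have : code v ≠ N := fun h => hv (code_inj (h.trans hu.symm))
    omega
  refine ⟨?_, ?_, ?_, ?_⟩
  · intro n
    have h5 : ({Sum.inl R.r} : Set (R.V ⊕ (Σ _ : R.V, K.V))) = Sum.inl '' {R.r} := by
      rw [Set.image_singleton]
    change ({Sum.inl R.r} : Set (R.V ⊕ (Σ _ : R.V, K.V))) ∈ _
    rw [h5]
    exact (inl_mem_hat (conn_singleton _)).2 (h1 n)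
  · intro v hv hc
    by_cases hvu : v = u
    · subst hvu
      rw [hT1]
      refine ⟨trivial, (pend R K).conn, ?_⟩
      rw [pend_ev]
      intro hcon
      rcases hcon.2.2 R.r with h | h
      · have h5 : K.r ∈ (∅ : Set K.V) := by rw [← h]; trivial
        exact h5
      · exact hK h
    · rw [hT2 v hvu]
      obtain ⟨h5, h6, h7⟩ := h2 v hv (hlt v hvu hc)
      refine ⟨⟨R.r, h5, rfl⟩, (conn_inl _).2 h6, ?_⟩
      rw [pend_ev]
      intro hcon
      exact h7 ((inl_mem_hat h6).1 hcon)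
  · intro w hw v hv hvw hwN Z hZT hZ hrZ hD
    by_cases hwu : w = u
    · subst hwu
      have hvw' : v ≠ w := fun h => by rw [h] at hvw; exact lt_irrefl _ hvw
      rw [hT1] at hD
      rw [hT2 v hvw']
      rw [pend_ev] at hD ⊢
      exact pair_top hK (T v) hZ hrZ hD
    · have hwN' := hlt w hwu hwN
      have hvu : v ≠ u := by
        intro h
        rw [h, hu] at hvw
        omega
      rw [hT2 w hwu] at hD hZT
      rw [hT2 v hvu]
      rw [pend_ev] at hD ⊢
      exact pair_old (h3 w hw v hv hvw hwN') hZT hZ hrZ hD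
  · intro v _ hvN
    have : v = u := code_inj (by omega)
    rw [this, hT1]
    rfl

/-- The chain. -/
theorem chain (P L : Set LTerm)
    (pieces : ∀ u ∈ L, ∃ K : Rooted, Pos P K ∧ Set.univ ∉ ev K.G K.X u) (N : ℕ) :
    ∃ (R : Rooted) (T : LTerm → Set R.V), Pos P R ∧ Good L N R T := by
  classical
  induction N with
  | zero =>
    refine ⟨full, fun _ => Set.univ, full_pos P, ?_, ?_, ?_, ?_⟩
    · intro n
      exact conn_singleton _
    · intro u _ h
      exact absurd h (Nat.not_lt_zero _)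
    · intro u _ v _ _ h
      exact absurd h (Nat.not_lt_zero _)
    · intro u _ _
      rfl
  | succ N ih =>
    obtain ⟨R, T, hpos, hgood⟩ := ih
    by_cases hex : ∃ u ∈ L, code u = N
    · obtain ⟨u, huL, hu⟩ := hex
      obtain ⟨K, hK1, hK2⟩ := pieces u huL
      exact ⟨pend R K, fun v => if v = u then (Set.univ : Set (R.V ⊕ (Σ _ : R.V, K.V)))
        else (Sum.inl '' T v : Set (R.V ⊕ (Σ _ : R.V, K.V))), pend_pos hpos hK1,
        good_pend hgood hu hK2 (if_pos rfl) (fun v hv => if_neg hv)⟩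
    · push Not at hex
      obtain ⟨h1, h2, h3, h4⟩ := hgood
      refine ⟨R, T, hpos, h1, ?_, ?_, ?_⟩
      · intro u hu hc
        have := hex u hu
        exact h2 u hu (by omega)
      · intro u hu v hv hvu hc
        have := hex u hu
        exact h3 u hu v hv hvu (by omega)
      · intro u hu hc
        have := hex u hu
        omega

end Pool.Agent.H19.GR
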