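import Mathlib
import Pool.Agent.Results.MP_397c7d_co.SemilatticeIdentities

set_option autoImplicit false

/-! Disjoint unions of members of a family of sets. -/

namespace Pool.Agent.H19.GR

variable {V W : Type*}

/-- `DU A D`: the set `D` is a finite disjoint union of members of `A`. -/
inductive DU (A : Set (Set V)) : Set V → Prop
  | empty : DU A ∅
  | add {D Y : Set V} : DU A D → Y ∈ A → Disjoint Y D → DU A (Y ∪ D)

namespace DU

lemma mono {A B : Set (Set V)} (h : A ⊆ B) {D : Set V} (hD : DU A D) : DU B D := by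
  induction hD with
  | empty => exact .empty
  | add _ hY hd ih => exact .add ih (h hY) hd

lemma union {A : Set (Set V)} {D E : Set V} (hD : DU A D) (hE : DU A E) (h : Disjoint D E) :
    DU A (D ∪ E) := by
  induction hD with
  | empty => simpa using hE
  | @add D Y hD hY hd ih =>
    rw [Set.union_assoc]
    rw [Set.disjoint_union_left] at h
    refine .add (ih h.2) hY ?_
    rw [Set.disjoint_union_right]
    exact ⟨hd, h.1⟩

lemma single {A : Set (Set V)} {Y : Set V} (h : Y ∈ A) : DU A Y := by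
  have := DU.add (A := A) .empty h (Set.disjoint_empty Y)
  simpa using this

/-- Transport along an operation on sets that preserves unions and disjointness. -/
lemma map {A : Set (Set V)} {B : Set (Set W)} (f : Set V → Set W) (h0 : f ∅ = ∅)
    (hU : ∀ P Q, f (P ∪ Q) = f P ∪ f Q) (hd : ∀ P Q, Disjoint P Q → Disjoint (f P) (f Q))
    {D : Set V} (hD : DU A D) (h : ∀ Y ∈ A, Y ⊆ D → DU B (f Y)) : DU B (f D) := by
  induction hD with
  | empty => rw [h0]; exact .empty
  | @add D Y hD hY hdj ih =>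
    rw [hU]
    exact (h Y hY Set.subset_union_left).union
      (ih (fun Z hZ hZD => h Z hZ (hZD.trans Set.subset_union_right))) (hd _ _ hdj)

lemma bind {A B : Set (Set V)} {D : Set V} (hD : DU A D) (h : ∀ Y ∈ A, Y ⊆ D → DU B Y) :
    DU B D :=
  hD.map (fun S => S) rfl (fun _ _ => rfl) (fun _ _ h => h) h

lemma restrict {A B : Set (Set V)} {D : Set V} (hD : DU A D) (h : ∀ Y ∈ A, Y ⊆ D → Y ∈ B) :
    DU B D :=
  hD.bind (fun Y hY hYD => single (h Y hY hYD))

lemma extract {A : Set (Set V)} {D : Set V} (hD : DU A D) {c : V} (hc : c ∈ D) :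
    ∃ Y ∈ A, c ∈ Y ∧ Y ⊆ D ∧ DU A (D \ Y) := by
  induction hD with
  | empty => exact absurd hc (Set.notMem_empty c)
  | @add D Y hD hY hdj ih =>
    by_cases hcY : c ∈ Y
    · refine ⟨Y, hY, hcY, Set.subset_union_left, ?_⟩
      have : (Y ∪ D) \ Y = D := by
        ext x
        simp only [Set.mem_sdiff, Set.mem_union]
        constructor
        · rintro ⟨h | h, h'⟩
          · exact absurd h h'
          · exact h
        · intro h
          exact ⟨Or.inr h, fun h' => Set.disjoint_left.1 hdj h' h⟩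
      rw [this]
      exact hD
    · have hcD : c ∈ D := hc.resolve_left hcY
      obtain ⟨Z, hZ, hcZ, hZD, hrest⟩ := ih hcD
      refine ⟨Z, hZ, hcZ, hZD.trans Set.subset_union_right, ?_⟩
      have : (Y ∪ D) \ Z = Y ∪ (D \ Z) := by
        ext x
        simp only [Set.mem_sdiff, Set.mem_union]
        constructor
        · rintro ⟨h | h, h'⟩
          · exact Or.inl h
          · exact Or.inr ⟨h, h'⟩
        · rintro (h | ⟨h, h'⟩)
          · exact ⟨Or.inl h, fun h' => Set.disjoint_left.1 hdj h (hZD h')⟩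
          · exact ⟨Or.inr h, h'⟩
      rw [this]
      refine .add hrest hY (hdj.mono_right Set.sdiff_subset)

lemma biUnion {ι : Type*} (s : Finset ι) {A : Set (Set V)} (D : ι → Set V)
    (hD : ∀ i ∈ s, DU A (D i)) (hd : ∀ i ∈ s, ∀ j ∈ s, i ≠ j → Disjoint (D i) (D j)) :
    DU A (⋃ i ∈ s, D i) := by
  classical
  induction s using Finset.induction_on with
  | empty => simpa using DU.empty
  | insert a s ha ih =>
    rw [Finset.set_biUnion_insert]
    refine (hD a (Finset.mem_insert_self a s)).union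
      (ih (fun i hi => hD i (Finset.mem_insert_of_mem hi))
        (fun i hi j hj => hd i (Finset.mem_insert_of_mem hi) j (Finset.mem_insert_of_mem hj))) ?_
    rw [Set.disjoint_iUnion₂_right]
    intro i hi
    exact hd a (Finset.mem_insert_self a s) i (Finset.mem_insert_of_mem hi)
      (fun h => ha (h ▸ hi))

lemma iUnion {ι : Type*} [Finite ι] {A : Set (Set V)} (D : ι → Set V)
    (hD : ∀ i, DU A (D i)) (hd : ∀ i j, i ≠ j → Disjoint (D i) (D j)) :
    DU A (⋃ i, D i) := by
  have := Fintype.ofFinite ι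
  have h := biUnion (Finset.univ : Finset ι) D (fun i _ => hD i) (fun i _ j _ => hd i j)
  simpa using h

/-- Pull back along an injective map. -/
lemma comap {A : Set (Set W)} (φ : V → W) {D : Set W} (hD : DU A D) (hr : D ⊆ Set.range φ)
    {B : Set (Set V)} (h : ∀ Y, φ '' Y ∈ A → Y ∈ B) : DU B (φ ⁻¹' D) := by
  refine hD.map (fun S => φ ⁻¹' S) rfl (fun _ _ => rfl) (fun P Q h => h.preimage φ) ?_
  intro Y hY hYD
  apply single
  apply h
  rw [Set.image_preimage_eq_of_subset (hYD.trans hr)]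
  exact hY

/-- Push forward along an injective map. -/
lemma image {A : Set (Set V)} (φ : V → W) (hφ : Function.Injective φ) {D : Set V} (hD : DU A D)
    {B : Set (Set W)} (h : ∀ Y ∈ A, Y ⊆ D → φ '' Y ∈ B) : DU B (φ '' D) := by
  refine hD.map (fun S => φ '' S) (Set.image_empty φ) (fun P Q => Set.image_union φ P Q)
    (fun P Q h => (Set.disjoint_image_iff hφ).2 h) ?_
  intro Y hY hYD
  exact single (h Y hY hYD)

end DU

/-! ### Connected sets, closure, interior, evaluation -/

/-- `Y` is nonempty and every cut of `Y` is crossed by an edge. -/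
def Conn (G : SimpleGraph V) (Y : Set V) : Prop :=
  Y.Nonempty ∧ ∀ S ⊆ Y, S.Nonempty → (Y \ S).Nonempty → ∃ a ∈ S, ∃ b ∈ Y \ S, G.Adj a b

/-- Closure. -/
def cl (G : SimpleGraph V) (A : Set (Set V)) : Set (Set V) := {Y | Conn G Y ∧ DU A Y}

/-- Interior. -/
def op (G : SimpleGraph V) (A : Set (Set V)) : Set (Set V) :=
  {Y | Conn G Y ∧ ¬ DU {Z | Conn G Z ∧ Z ∉ A} Y}

open Pool.Agent.Results.MP_397c7d_co.SemilatticeIdentities (LTerm)

/-- Evaluation of terms. -/
def ev (G : SimpleGraph V) (X : ℕ → Set (Set V)) : LTerm → Set (Set V)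
  | .var n => X n
  | .sup a b => cl G (ev G X a ∪ ev G X b)
  | .inf a b => cl G (op G (ev G X a ∩ ev G X b))

section
variable {G : SimpleGraph V}

lemma Conn.ne_empty {Y : Set V} (h : Conn G Y) : Y ≠ ∅ := h.1.ne_empty

lemma cl_mono {A B : Set (Set V)} (h : A ⊆ B) : cl G A ⊆ cl G B :=
  fun _ hY => ⟨hY.1, hY.2.mono h⟩

lemma subset_cl {A : Set (Set V)} (h : ∀ Y ∈ A, Conn G Y) : A ⊆ cl G A :=
  fun Y hY => ⟨h Y hY, .single hY⟩

lemma cl_cl (A : Set (Set V)) : cl G (cl G A) ⊆ cl G A :=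
  fun _ hY => ⟨hY.1, hY.2.bind (fun _ hZ _ => hZ.2)⟩

lemma op_mono {A B : Set (Set V)} (h : A ⊆ B) : op G A ⊆ op G B :=
  fun _ hY => ⟨hY.1, fun hD => hY.2 (hD.mono (B := {Z | Conn G Z ∧ Z ∉ A})
    (fun _ hZ => ⟨hZ.1, fun hA => hZ.2 (h hA)⟩))⟩

lemma op_subset (A : Set (Set V)) : op G A ⊆ A := by
  intro Y hY
  by_contra h
  exact hY.2 (.single ⟨hY.1, h⟩)

lemma op_op {A : Set (Set V)} : op G A ⊆ op G (op G A) := by
  intro Y hY
  refine ⟨hY.1, fun hD => hY.2 (hD.bind ?_)⟩
  rintro Z ⟨hZ, hZA⟩ -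
  by_contra hcon
  exact hZA ⟨hZ, hcon⟩

/-- A family is open. -/
def IsOp (G : SimpleGraph V) (U : Set (Set V)) : Prop := U ⊆ op G U

lemma IsOp.subset_op {U A : Set (Set V)} (hU : IsOp G U) (h : U ⊆ A) : U ⊆ op G A :=
  hU.trans (op_mono h)

lemma isOp_op (A : Set (Set V)) : IsOp G (op G A) := op_op

lemma IsOp.union {U U' : Set (Set V)} (h : IsOp G U) (h' : IsOp G U') : IsOp G (U ∪ U') := by
  rintro Y (hY | hY)
  · exact op_mono Set.subset_union_left (h hY)
  · exact op_mono Set.subset_union_right (h' hY)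

/-- The assignment consists of regular closed families. -/
def Reg (G : SimpleGraph V) (X : ℕ → Set (Set V)) : Prop := ∀ n, cl G (op G (X n)) = X n

lemma Reg.closed {X : ℕ → Set (Set V)} (hX : Reg G X) (t : LTerm) :
    cl G (ev G X t) ⊆ ev G X t := by
  cases t with
  | var n => rw [ev, ← hX n]; exact cl_cl _
  | sup a b => exact cl_cl _
  | inf a b => exact cl_cl _

lemma Reg.conn {X : ℕ → Set (Set V)} (hX : Reg G X) (t : LTerm) {Y : Set V}
    (h : Y ∈ ev G X t) : Conn G Y := by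
  cases t with
  | var n => rw [ev, ← hX n] at h; exact h.1
  | sup a b => exact h.1
  | inf a b => exact h.1

lemma Reg.left_sup {X : ℕ → Set (Set V)} (hX : Reg G X) (a b : LTerm) :
    ev G X a ⊆ ev G X (.sup a b) :=
  fun _ hY => ⟨hX.conn a hY, .single (Or.inl hY)⟩

lemma Reg.right_sup {X : ℕ → Set (Set V)} (hX : Reg G X) (a b : LTerm) :
    ev G X b ⊆ ev G X (.sup a b) :=
  fun _ hY => ⟨hX.conn b hY, .single (Or.inr hY)⟩

lemma Reg.inf_left {X : ℕ → Set (Set V)} (hX : Reg G X) (a b : LTerm) :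
    ev G X (.inf a b) ⊆ ev G X a :=
  (cl_mono ((op_subset _).trans Set.inter_subset_left)).trans (hX.closed a)

lemma Reg.inf_right {X : ℕ → Set (Set V)} (hX : Reg G X) (a b : LTerm) :
    ev G X (.inf a b) ⊆ ev G X b :=
  (cl_mono ((op_subset _).trans Set.inter_subset_right)).trans (hX.closed b)

open Pool.Agent.Results.MP_397c7d_co.SemilatticeIdentities (Mtd)

lemma Reg.mtd {X : ℕ → Set (Set V)} (hX : Reg G X) {u a : LTerm} (h : Mtd u a) :
    ev G X a ⊆ ev G X u := by
  induction a with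
  | var n => simp only [Mtd] at h; subst h; exact le_rfl
  | sup a b _ _ => simp only [Mtd] at h; subst h; exact le_rfl
  | inf a b iha ihb =>
    rcases h with h | h
    · exact (hX.inf_left a b).trans (iha h)
    · exact (hX.inf_right a b).trans (ihb h)

/-- An open family inside every meetand of `s` is inside `s`. -/
lemma Reg.subset_of_mtd {X : ℕ → Set (Set V)} {U : Set (Set V)}
    (hU : IsOp G U) {s : LTerm} (h : ∀ σ, Mtd σ s → U ⊆ ev G X σ) : U ⊆ ev G X s := by
  induction s with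
  | var n => exact h _ rfl
  | sup a b _ _ => exact h _ rfl
  | inf a b iha ihb =>
    have h1 := iha (fun σ hσ => h σ (Or.inl hσ))
    have h2 := ihb (fun σ hσ => h σ (Or.inr hσ))
    intro Y hY
    have h3 : Y ∈ op G (ev G X a ∩ ev G X b) :=
      hU.subset_op (Set.subset_inter h1 h2) hY
    exact ⟨h3.1, .single h3⟩

/-- An open family contained in all variables is contained in all values. -/
lemma subset_ev_of_var {X : ℕ → Set (Set V)} {U : Set (Set V)}
    (hU : IsOp G U) (h : ∀ n, U ⊆ X n) (t : LTerm) : U ⊆ ev G X t := by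
  induction t with
  | var n => exact h n
  | sup a b iha _ => exact fun Y hY => ⟨(hU hY).1, .single (Or.inl (iha hY))⟩
  | inf a b iha ihb =>
    intro Y hY
    have h3 : Y ∈ op G (ev G X a ∩ ev G X b) :=
      hU.subset_op (Set.subset_inter iha ihb) hY
    exact ⟨h3.1, .single h3⟩

/-- Closure, locally. -/
lemma cl_local {A B : Set (Set V)} {D : Set V} (h : ∀ Y ⊆ D, Y ∈ A → Y ∈ B) {Y : Set V}
    (hYD : Y ⊆ D) (hY : Y ∈ cl G A) : Y ∈ cl G B :=
  ⟨hY.1, hY.2.restrict (fun Z hZ hZY => h Z (hZY.trans hYD) hZ)⟩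

/-- Interior, locally. -/
lemma op_local {A B : Set (Set V)} {D : Set V} (h : ∀ Y ⊆ D, Y ∈ A → Y ∈ B) {Y : Set V}
    (hYD : Y ⊆ D) (hY : Y ∈ op G A) : Y ∈ op G B :=
  ⟨hY.1, fun hD => hY.2 (hD.restrict
    (fun Z hZ hZY => ⟨hZ.1, fun hA => hZ.2 (h Z (hZY.trans hYD) hA)⟩))⟩

/-- Values on subsets of `D` depend only on the assignment on subsets of `D`. -/
lemma ev_local {X X' : ℕ → Set (Set V)} {D : Set V}
    (h : ∀ n, ∀ Y ⊆ D, (Y ∈ X n ↔ Y ∈ X' n)) (t : LTerm) :
    ∀ Y ⊆ D, (Y ∈ ev G X t ↔ Y ∈ ev G X' t) := by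
  induction t with
  | var n => exact h n
  | sup a b iha ihb =>
    intro Y hYD
    constructor
    · refine cl_local ?_ hYD
      rintro Z hZ (h | h)
      · exact Or.inl ((iha Z hZ).1 h)
      · exact Or.inr ((ihb Z hZ).1 h)
    · refine cl_local ?_ hYD
      rintro Z hZ (h | h)
      · exact Or.inl ((iha Z hZ).2 h)
      · exact Or.inr ((ihb Z hZ).2 h)
  | inf a b iha ihb =>
    intro Y hYD
    constructor
    · refine cl_local (fun Z hZ => op_local ?_ hZ) hYD
      rintro T hT ⟨h, h'⟩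
      exact ⟨(iha T hT).1 h, (ihb T hT).1 h'⟩
    · refine cl_local (fun Z hZ => op_local ?_ hZ) hYD
      rintro T hT ⟨h, h'⟩
      exact ⟨(iha T hT).2 h, (ihb T hT).2 h'⟩

end

end Pool.Agent.H19.GR
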