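import Pool.Agent.H19.GR.DU

set_option autoImplicit false

/-! Connected sets and the operation of attaching rooted graphs by bridges. -/

namespace Pool.Agent.H19.GR

section Conn

variable {V V' : Type*} {G : SimpleGraph V} {G' : SimpleGraph V'}

/-- A connected set is not separated by a part of the ambient set without outgoing edges. -/
lemma Conn.subset_of_noCross {P Y S : Set V} (hP : Conn G P) (hPY : P ⊆ Y)
    (hno : ∀ a ∈ S, ∀ b ∈ Y \ S, ¬ G.Adj a b) (hne : (P ∩ S).Nonempty) : P ⊆ S := by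
  by_contra hcon
  have h1 : (P \ (P ∩ S)).Nonempty := by
    rw [Set.not_subset] at hcon
    obtain ⟨x, hx, hxS⟩ := hcon
    exact ⟨x, hx, fun h => hxS h.2⟩
  obtain ⟨a, ha, b, hb, hab⟩ := hP.2 (P ∩ S) Set.inter_subset_left hne h1
  refine hno a ha.2 b ⟨hPY hb.1, fun h => hb.2 ⟨hb.1, h⟩⟩ hab

lemma conn_iff {Y : Set V} : Conn G Y ↔ Y.Nonempty ∧ ∀ S ⊆ Y, S.Nonempty →
    (∀ a ∈ S, ∀ b ∈ Y \ S, ¬ G.Adj a b) → Y ⊆ S := by
  constructor
  · intro h
    refine ⟨h.1, fun S hS hne hno => h.subset_of_noCross le_rfl hno ?_⟩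
    obtain ⟨x, hx⟩ := hne
    exact ⟨x, hS hx, hx⟩
  · rintro ⟨h1, h2⟩
    refine ⟨h1, fun S hS hne hne' => ?_⟩
    by_contra hcon
    push Not at hcon
    have := h2 S hS hne (fun a ha b hb => hcon a ha b hb)
    obtain ⟨x, hx, hx'⟩ := hne'
    exact hx' (this hx)

lemma conn_singleton (v : V) : Conn G {v} := by
  rw [conn_iff]
  refine ⟨⟨v, rfl⟩, fun S hS hne _ => ?_⟩
  obtain ⟨x, hx⟩ := hne
  have : x = v := hS hx
  subst this
  rw [Set.singleton_subset_iff]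
  exact hx

lemma Conn.union {P Q : Set V} (hP : Conn G P) (hQ : Conn G Q) {a b : V} (ha : a ∈ P)
    (hb : b ∈ Q) (hab : G.Adj a b) : Conn G (P ∪ Q) := by
  rw [conn_iff]
  refine ⟨⟨a, Or.inl ha⟩, fun S hS hne hno => ?_⟩
  have hPS : (P ∩ S).Nonempty → P ⊆ S :=
    fun h => hP.subset_of_noCross Set.subset_union_left hno h
  have hQS : (Q ∩ S).Nonempty → Q ⊆ S :=
    fun h => hQ.subset_of_noCross Set.subset_union_right hno h
  have h1 : P ⊆ S → Q ⊆ S := by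
    intro h
    apply hQS
    refine ⟨b, hb, ?_⟩
    by_contra hbS
    exact hno a (h ha) b ⟨Or.inr hb, hbS⟩ hab
  have h2 : Q ⊆ S → P ⊆ S := by
    intro h
    apply hPS
    refine ⟨a, ha, ?_⟩
    by_contra haS
    exact hno b (h hb) a ⟨Or.inl ha, haS⟩ hab.symm
  obtain ⟨x, hx⟩ := hne
  rcases hS hx with hxP | hxQ
  · have h3 := hPS ⟨x, hxP, hx⟩
    exact Set.union_subset h3 (h1 h3)
  · have h3 := hQS ⟨x, hxQ, hx⟩
    exact Set.union_subset (h2 h3) h3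

/-- Connectedness of images under induced embeddings. -/
lemma conn_image {φ : V' → V} (hφ : Function.Injective φ)
    (hadj : ∀ a b, G.Adj (φ a) (φ b) ↔ G'.Adj a b) (Y : Set V') :
    Conn G (φ '' Y) ↔ Conn G' Y := by
  constructor
  · rintro ⟨h1, h2⟩
    refine ⟨Set.image_nonempty.1 h1, fun S hS hne hne' => ?_⟩
    have h3 : (φ '' Y \ φ '' S).Nonempty := by
      obtain ⟨x, hx, hxS⟩ := hne'
      exact ⟨φ x, ⟨x, hx, rfl⟩, fun ⟨y, hy, hyx⟩ => hxS (hφ hyx ▸ hy)⟩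
    obtain ⟨_, ⟨a, ha, rfl⟩, _, ⟨⟨b, hb, rfl⟩, hb'⟩, hab⟩ :=
      h2 (φ '' S) (Set.image_mono hS) (hne.image φ) h3
    exact ⟨a, ha, b, ⟨hb, fun h => hb' ⟨b, h, rfl⟩⟩, (hadj a b).1 hab⟩
  · rintro ⟨h1, h2⟩
    refine ⟨h1.image φ, fun S hS hne hne' => ?_⟩
    have h3 : (φ ⁻¹' S).Nonempty := by
      obtain ⟨x, hx⟩ := hne
      obtain ⟨y, hy, rfl⟩ := hS hx
      exact ⟨y, hx⟩
    have h4 : (Y \ φ ⁻¹' S).Nonempty := by
      obtain ⟨_, ⟨y, hy, rfl⟩, hx⟩ := hne'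
      exact ⟨y, hy, hx⟩
    have h5 : φ ⁻¹' S ⊆ Y := by
      intro x hx
      obtain ⟨y, hy, hyx⟩ := hS hx
      exact hφ hyx ▸ hy
    obtain ⟨a, ha, b, hb, hab⟩ := h2 _ h5 h3 h4
    exact ⟨φ a, ha, φ b, ⟨⟨b, hb.1, rfl⟩, hb.2⟩, (hadj a b).2 hab⟩

end Conn

section Attach

variable {A : Type*} {I : Type*} {B : I → Type*}

/-- The graph obtained from `H` and the rooted graphs `(K i, r i)` by adding, for each `i`, the
edge from `r i` to the vertex `p i` of `H`. -/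
def attach (H : SimpleGraph A) (K : ∀ i, SimpleGraph (B i)) (r : ∀ i, B i) (p : I → A) :
    SimpleGraph (A ⊕ (Σ i, B i)) where
  Adj x y :=
    (∃ a b, x = .inl a ∧ y = .inl b ∧ H.Adj a b) ∨
    (∃ i, x = .inl (p i) ∧ y = .inr ⟨i, r i⟩) ∨
    (∃ i, y = .inl (p i) ∧ x = .inr ⟨i, r i⟩) ∨
    (∃ i a b, x = .inr ⟨i, a⟩ ∧ y = .inr ⟨i, b⟩ ∧ (K i).Adj a b)
  symm := by
    refine ⟨?_⟩
    rintro x y (⟨a, b, rfl, rfl, h⟩ | ⟨i, rfl, rfl⟩ | ⟨i, rfl, rfl⟩ | ⟨i, a, b, rfl, rfl, h⟩)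
    · exact Or.inl ⟨b, a, rfl, rfl, h.symm⟩
    · exact Or.inr (Or.inr (Or.inl ⟨i, rfl, rfl⟩))
    · exact Or.inr (Or.inl ⟨i, rfl, rfl⟩)
    · exact Or.inr (Or.inr (Or.inr ⟨i, b, a, rfl, rfl, h.symm⟩))
  loopless := by
    refine ⟨?_⟩
    rintro x (⟨a, b, hx, h1, h⟩ | ⟨i, hx, h1⟩ | ⟨i, hx, h1⟩ | ⟨i, a, b, hx, h1, h⟩)
    · rw [hx] at h1
      have : a = b := Sum.inl_injective h1
      exact h.ne this
    · rw [hx] at h1
      exact Sum.inl_ne_inr h1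
    · rw [hx] at h1
      exact Sum.inl_ne_inr h1
    · rw [hx] at h1
      have : a = b := by
        have := Sum.inr_injective h1
        simpa using this
      exact h.ne this

variable {H : SimpleGraph A} {K : ∀ i, SimpleGraph (B i)} {r : ∀ i, B i} {p : I → A}

/-- The part of a set in the base. -/
def base (Y : Set (A ⊕ (Σ i, B i))) : Set A := {a | Sum.inl a ∈ Y}

/-- The part of a set in the pendant `i`. -/
def part (Y : Set (A ⊕ (Σ i, B i))) (i : I) : Set (B i) := {b | Sum.inr ⟨i, b⟩ ∈ Y}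

/-- The embedding of the pendant `i`. -/
def inB (i : I) : B i → A ⊕ (Σ i, B i) := fun b => .inr ⟨i, b⟩

lemma inB_inj (i : I) : Function.Injective (inB (A := A) (B := B) i) := by
  intro a b h
  have := Sum.inr_injective h
  simpa using this

lemma adj_inl (a b : A) : (attach H K r p).Adj (.inl a) (.inl b) ↔ H.Adj a b := by
  constructor
  · rintro (⟨a', b', h1, h2, h⟩ | ⟨i, h1, h2⟩ | ⟨i, h1, h2⟩ | ⟨i, a', b', h1, h2, h⟩)
    · rw [Sum.inl_injective h1, Sum.inl_injective h2]; exact h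
    · exact absurd h2 Sum.inl_ne_inr
    · exact absurd h2 Sum.inl_ne_inr
    · exact absurd h1 Sum.inl_ne_inr
  · intro h
    exact Or.inl ⟨a, b, rfl, rfl, h⟩

lemma adj_inB (i : I) (a b : B i) :
    (attach H K r p).Adj (inB i a) (inB i b) ↔ (K i).Adj a b := by
  constructor
  · rintro (⟨a', b', h1, h2, h⟩ | ⟨j, h1, h2⟩ | ⟨j, h1, h2⟩ | ⟨j, a', b', h1, h2, h⟩)
    · exact absurd h1 Sum.inr_ne_inl
    · exact absurd h1 Sum.inr_ne_inl
    · exact absurd h1 Sum.inr_ne_inl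
    · have h3 := Sum.inr_injective h1
      have h4 := Sum.inr_injective h2
      rw [Sigma.mk.injEq] at h3 h4
      obtain ⟨rfl, h3⟩ := h3
      rw [heq_eq_eq] at h3
      have h5 := h4.2
      rw [heq_eq_eq] at h5
      rw [h3, h5]
      exact h
  · intro h
    exact Or.inr (Or.inr (Or.inr ⟨i, a, b, rfl, rfl, h⟩))

lemma adj_bridge (i : I) : (attach H K r p).Adj (.inl (p i)) (inB i (r i)) :=
  Or.inr (Or.inl ⟨i, rfl, rfl⟩)

/-- Edges leaving a pendant. -/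
lemma adj_out {i : I} {b : B i} {y : A ⊕ (Σ i, B i)} (h : (attach H K r p).Adj (inB i b) y) :
    (y = .inl (p i) ∧ b = r i) ∨ ∃ b', y = inB i b' ∧ (K i).Adj b b' := by
  rcases h with ⟨a', b', h1, h2, h⟩ | ⟨j, h1, h2⟩ | ⟨j, h1, h2⟩ | ⟨j, a', b', h1, h2, h⟩
  · exact absurd h1 Sum.inr_ne_inl
  · exact absurd h1 Sum.inr_ne_inl
  · have h3 := Sum.inr_injective h2
    rw [Sigma.mk.injEq] at h3
    obtain ⟨rfl, h3⟩ := h3
    rw [heq_eq_eq] at h3
    exact Or.inl ⟨h1, h3⟩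
  · have h3 := Sum.inr_injective h1
    rw [Sigma.mk.injEq] at h3
    obtain ⟨rfl, h3⟩ := h3
    rw [heq_eq_eq] at h3
    rw [h3]
    exact Or.inr ⟨b', h2, h⟩

lemma decomp (Y : Set (A ⊕ (Σ i, B i))) :
    Y = Sum.inl '' base Y ∪ ⋃ i, inB i '' part Y i := by
  ext x
  simp only [Set.mem_union, Set.mem_image, Set.mem_iUnion]
  constructor
  · intro hx
    rcases x with a | ⟨i, b⟩
    · exact Or.inl ⟨a, hx, rfl⟩
    · exact Or.inr ⟨i, b, hx, rfl⟩
  · rintro (⟨a, ha, rfl⟩ | ⟨i, b, hb, rfl⟩)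
    · exact ha
    · exact hb

lemma ext_parts {Y Z : Set (A ⊕ (Σ i, B i))} (h0 : base Y = base Z)
    (h : ∀ i, part Y i = part Z i) : Y = Z := by
  rw [decomp Y, decomp Z, h0]
  simp only [h]

lemma conn_inl (S : Set A) : Conn (attach H K r p) (Sum.inl '' S) ↔ Conn H S :=
  conn_image Sum.inl_injective (fun a b => adj_inl a b) S

lemma conn_inB (i : I) (S : Set (B i)) : Conn (attach H K r p) (inB i '' S) ↔ Conn (K i) S :=
  conn_image (inB_inj i) (fun a b => adj_inB i a b) S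

lemma conn_base {Y : Set (A ⊕ (Σ i, B i))} (hY : Conn (attach H K r p) Y)
    (h : (base Y).Nonempty) : Conn H (base Y) := by
  rw [conn_iff]
  refine ⟨h, fun S hS hne hno => ?_⟩
  -- the set of points over `S`
  let T : Set (A ⊕ (Σ i, B i)) :=
    {x | x ∈ Y ∧ ((∃ a ∈ S, x = .inl a) ∨ (∃ i b, p i ∈ S ∧ x = .inr ⟨i, b⟩))}
  have hT : Y ⊆ T := by
    refine (conn_iff.1 hY).2 T (fun x hx => hx.1) ?_ ?_
    · obtain ⟨a, ha⟩ := hne
      exact ⟨.inl a, hS ha, Or.inl ⟨a, ha, rfl⟩⟩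
    · rintro x ⟨hxY, hx⟩ y ⟨hyY, hyT⟩ hxy
      have hy' : ¬ ((∃ a ∈ S, y = .inl a) ∨ (∃ i b, p i ∈ S ∧ y = .inr ⟨i, b⟩)) :=
        fun h => hyT ⟨hyY, h⟩
      push Not at hy'
      rcases hx with ⟨a, ha, rfl⟩ | ⟨i, b, hi, rfl⟩
      · rcases y with a' | ⟨j, b'⟩
        · refine hno a ha a' ⟨hyY, fun h => hy'.1 a' h rfl⟩ ((adj_inl a a').1 hxy)
        · rcases adj_out (i := j) (b := b') hxy.symm with ⟨h1, _⟩ | ⟨b'', h1, _⟩
          · have h2 : a = p j := Sum.inl_injective h1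
            exact hy'.2 j b' (h2 ▸ ha) rfl
          · exact absurd h1 Sum.inl_ne_inr
      · rcases adj_out (i := i) (b := b) hxy with ⟨h1, _⟩ | ⟨b'', h1, _⟩
        · exact hy'.1 (p i) hi h1
        · exact hy'.2 i b'' hi h1
  intro a ha
  rcases (hT ha).2 with ⟨a', ha', h⟩ | ⟨i, b, _, h⟩
  · rw [Sum.inl_injective h]; exact ha'
  · exact absurd h Sum.inl_ne_inr

lemma conn_part {Y : Set (A ⊕ (Σ i, B i))} (hY : Conn (attach H K r p) Y) {i : I}
    (h : (part Y i).Nonempty) : Conn (K i) (part Y i) := by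
  -- a cut part without the root leads to a contradiction
  have key : ∀ S ⊆ part Y i, S.Nonempty → (part Y i \ S).Nonempty → r i ∉ S →
      ∃ a ∈ S, ∃ b ∈ part Y i \ S, (K i).Adj a b := by
    intro S hS hne hne' hr
    have h1 : inB i '' S ⊆ Y := by
      rintro _ ⟨b, hb, rfl⟩
      exact hS hb
    have h2 : (Y \ inB i '' S).Nonempty := by
      obtain ⟨b, hb, hbS⟩ := hne'
      exact ⟨inB i b, hb, fun ⟨b', hb', h⟩ => hbS (inB_inj i h ▸ hb')⟩
    obtain ⟨_, ⟨a, ha, rfl⟩, y, ⟨hyY, hyS⟩, hay⟩ := hY.2 _ h1 (hne.image _) h2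
    rcases adj_out hay with ⟨_, h3⟩ | ⟨b', h3, h4⟩
    · exact absurd (h3 ▸ ha) hr
    · subst h3
      exact ⟨a, ha, b', ⟨hyY, fun h => hyS ⟨b', h, rfl⟩⟩, h4⟩
  refine ⟨h, fun S hS hne hne' => ?_⟩
  by_cases hr : r i ∈ S
  · have h1 : (part Y i \ (part Y i \ S)).Nonempty := by
      obtain ⟨x, hx⟩ := hne
      exact ⟨x, hS hx, fun h => h.2 hx⟩
    obtain ⟨a, ha, b, hb, hab⟩ := key (part Y i \ S) Set.sdiff_subset hne' h1 (fun h => h.2 hr)
    refine ⟨b, ?_, a, ha, hab.symm⟩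
    by_contra hbS
    exact hb.2 ⟨hb.1, hbS⟩
  · exact key S hS hne hne' hr

lemma gate {Y : Set (A ⊕ (Σ i, B i))} (hY : Conn (attach H K r p) Y) {i : I}
    (h : (part Y i).Nonempty) (h' : ¬ Y ⊆ Set.range (inB i)) :
    r i ∈ part Y i ∧ p i ∈ base Y := by
  have h1 : inB i '' part Y i ⊆ Y := by
    rintro _ ⟨b, hb, rfl⟩
    exact hb
  have h2 : (Y \ inB i '' part Y i).Nonempty := by
    rw [Set.not_subset] at h'
    obtain ⟨x, hx, hx'⟩ := h'
    exact ⟨x, hx, fun ⟨b, _, hb⟩ => hx' ⟨b, hb⟩⟩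
  obtain ⟨_, ⟨a, ha, rfl⟩, y, ⟨hyY, hyS⟩, hay⟩ := hY.2 _ h1 (h.image _) h2
  rcases adj_out hay with ⟨h3, h4⟩ | ⟨b', h3, _⟩
  · subst h3
    exact ⟨h4 ▸ ha, hyY⟩
  · subst h3
    exact absurd ⟨b', hyY, rfl⟩ hyS

lemma gate_base {Y : Set (A ⊕ (Σ i, B i))} (hY : Conn (attach H K r p) Y) {i : I}
    (h : (part Y i).Nonempty) (h' : (base Y).Nonempty) :
    r i ∈ part Y i ∧ p i ∈ base Y := by
  apply gate hY h
  obtain ⟨a, ha⟩ := h'
  intro hsub
  obtain ⟨b, hb⟩ := hsub ha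
  exact Sum.inr_ne_inl hb

lemma single_part {Y : Set (A ⊕ (Σ i, B i))} (hY : Conn (attach H K r p) Y)
    (h : base Y = ∅) : ∃ i, Y = inB i '' part Y i ∧ (part Y i).Nonempty := by
  obtain ⟨x, hx⟩ := hY.1
  rcases x with a | ⟨i, b⟩
  · have : a ∈ base Y := hx
    rw [h] at this
    exact absurd this (Set.notMem_empty a)
  · refine ⟨i, ?_, ⟨b, hx⟩⟩
    have h1 : Y ⊆ Set.range (inB i) := by
      by_contra hcon
      have := (gate hY (i := i) ⟨b, hx⟩ hcon).2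
      rw [h] at this
      exact this
    apply Set.Subset.antisymm
    · intro y hy
      obtain ⟨b', rfl⟩ := h1 hy
      exact ⟨b', hy, rfl⟩
    · rintro _ ⟨b', hb', rfl⟩
      exact hb'

/-- Gluing connected pieces. -/
lemma conn_mk {S : Set A} (hS : Conn H S) {D : ∀ i, Set (B i)}
    (hD : ∀ i, (D i).Nonempty → Conn (K i) (D i) ∧ r i ∈ D i ∧ p i ∈ S) :
    Conn (attach H K r p) (Sum.inl '' S ∪ ⋃ i, inB i '' D i) := by
  rw [conn_iff]
  refine ⟨(hS.1.image _).mono Set.subset_union_left, fun T hT hne hno => ?_⟩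
  have h0 : (Sum.inl '' S ∩ T).Nonempty → Sum.inl '' S ⊆ T :=
    fun h => ((conn_inl S).2 hS).subset_of_noCross Set.subset_union_left hno h
  have hi : ∀ i, (inB i '' D i ∩ T).Nonempty → inB i '' D i ⊆ T := by
    intro i h
    have h1 : (D i).Nonempty := by
      obtain ⟨_, ⟨b, hb, _⟩, _⟩ := h
      exact ⟨b, hb⟩
    refine ((conn_inB i (D i)).2 (hD i h1).1).subset_of_noCross ?_ hno h
    exact (Set.subset_iUnion (fun i => inB i '' D i) i).trans Set.subset_union_right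
  have h1 : Sum.inl '' S ⊆ T → ∀ i, inB i '' D i ⊆ T := by
    intro h i
    by_cases hne : (D i).Nonempty
    · obtain ⟨_, h2, h3⟩ := hD i hne
      apply hi i
      refine ⟨inB i (r i), ⟨r i, h2, rfl⟩, ?_⟩
      by_contra hcon
      refine hno (.inl (p i)) (h ⟨p i, h3, rfl⟩) (inB i (r i)) ⟨Or.inr ?_, hcon⟩ (adj_bridge i)
      exact Set.mem_iUnion.2 ⟨i, r i, h2, rfl⟩
    · rw [Set.not_nonempty_iff_eq_empty.1 hne, Set.image_empty]
      exact Set.empty_subset _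
  have h2 : Sum.inl '' S ⊆ T → Sum.inl '' S ∪ ⋃ i, inB i '' D i ⊆ T :=
    fun h => Set.union_subset h (Set.iUnion_subset (h1 h))
  obtain ⟨x, hx⟩ := hne
  rcases hT hx with hxS | hxD
  · exact h2 (h0 ⟨x, hxS, hx⟩)
  · obtain ⟨i, hxi⟩ := Set.mem_iUnion.1 hxD
    have h3 := hi i ⟨x, hxi, hx⟩
    have hne : (D i).Nonempty := by
      obtain ⟨b, hb, _⟩ := hxi
      exact ⟨b, hb⟩
    obtain ⟨_, h4, h5⟩ := hD i hne
    apply h2
    apply h0
    refine ⟨.inl (p i), ⟨p i, h5, rfl⟩, ?_⟩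
    by_contra hcon
    exact hno (inB i (r i)) (h3 ⟨r i, h4, rfl⟩) (.inl (p i)) ⟨Or.inl ⟨p i, h5, rfl⟩, hcon⟩
      (adj_bridge i).symm

lemma base_mk (S : Set A) (D : ∀ i, Set (B i)) :
    base (Sum.inl '' S ∪ ⋃ i, inB i '' D i) = S := by
  ext a
  simp only [base, Set.mem_ofPred_eq, Set.mem_union, Set.mem_image, Set.mem_iUnion]
  constructor
  · rintro (⟨b, hb, h⟩ | ⟨i, b, _, h⟩)
    · rw [← Sum.inl_injective h]; exact hb
    · exact absurd h Sum.inr_ne_inl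
  · intro h
    exact Or.inl ⟨a, h, rfl⟩

lemma part_mk (S : Set A) (D : ∀ i, Set (B i)) (i : I) :
    part (Sum.inl '' S ∪ ⋃ i, inB i '' D i) i = D i := by
  ext b
  simp only [part, Set.mem_ofPred_eq, Set.mem_union, Set.mem_image, Set.mem_iUnion]
  constructor
  · rintro (⟨b, _, h⟩ | ⟨j, b', hb', h⟩)
    · exact absurd h Sum.inl_ne_inr
    · have h3 := Sum.inr_injective h
      rw [Sigma.mk.injEq] at h3
      obtain ⟨rfl, h3⟩ := h3
      rw [heq_eq_eq] at h3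
      rw [← h3]
      exact hb'
  · intro h
    exact Or.inr ⟨i, b, h, rfl⟩

/-- Every edge is the only edge crossing some cut. -/
def Acyc {V : Type*} (G : SimpleGraph V) : Prop :=
  ∀ a b, G.Adj a b → ∃ S : Set V, a ∈ S ∧ b ∉ S ∧ ∀ x ∈ S, ∀ y ∉ S, G.Adj x y → x = a ∧ y = b

lemma acyc_attach (hH : Acyc H) (hK : ∀ i, Acyc (K i)) : Acyc (attach H K r p) := by
  rintro x y (⟨a, b, rfl, rfl, h⟩ | ⟨i, rfl, rfl⟩ | ⟨i, rfl, rfl⟩ | ⟨i, a, b, rfl, rfl, h⟩)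
  · obtain ⟨S, haS, hbS, hS⟩ := hH a b h
    refine ⟨{x | (∃ a ∈ S, x = .inl a) ∨ (∃ i b, p i ∈ S ∧ x = .inr ⟨i, b⟩)},
      Or.inl ⟨a, haS, rfl⟩, ?_, ?_⟩
    · rintro (⟨a', ha', h'⟩ | ⟨i, b', _, h'⟩)
      · rw [← Sum.inl_injective h'] at ha'
        exact hbS ha'
      · exact Sum.inl_ne_inr h'
    · rintro x (⟨a', ha', rfl⟩ | ⟨i, b', hi, rfl⟩) y hy hxy
      · rcases y with c | ⟨j, c⟩
        · have hc : c ∉ S := fun hc => hy (Or.inl ⟨c, hc, rfl⟩)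
          obtain ⟨h1, h2⟩ := hS a' ha' c hc ((adj_inl a' c).1 hxy)
          rw [h1, h2]
          exact ⟨rfl, rfl⟩
        · rcases adj_out (i := j) (b := c) hxy.symm with ⟨h1, _⟩ | ⟨b'', h1, _⟩
          · have h2 : a' = p j := Sum.inl_injective h1
            exact absurd (Or.inr ⟨j, c, h2 ▸ ha', rfl⟩) hy
          · exact absurd h1 Sum.inl_ne_inr
      · rcases adj_out (i := i) (b := b') hxy with ⟨h1, _⟩ | ⟨b'', h1, _⟩
        · exact absurd (Or.inl ⟨p i, hi, h1⟩) hy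
        · exact absurd (Or.inr ⟨i, b'', hi, h1⟩) hy
  · refine ⟨(Set.range (inB i))ᶜ, ?_, ?_, ?_⟩
    · rintro ⟨b, hb⟩
      exact Sum.inr_ne_inl hb
    · intro h
      exact h ⟨r i, rfl⟩
    · intro x hx y hy hxy
      rw [Set.notMem_compl_iff] at hy
      obtain ⟨b, rfl⟩ := hy
      rcases adj_out hxy.symm with ⟨h1, h2⟩ | ⟨b', h1, _⟩
      · rw [h2]
        exact ⟨h1, rfl⟩
      · exact absurd ⟨b', h1.symm⟩ hx
  · refine ⟨Set.range (inB i), ⟨r i, rfl⟩, ?_, ?_⟩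
    · rintro ⟨b, hb⟩
      exact Sum.inr_ne_inl hb
    · rintro _ ⟨b, rfl⟩ y hy hxy
      rcases adj_out hxy with ⟨h1, h2⟩ | ⟨b', h1, _⟩
      · rw [h2]
        exact ⟨rfl, h1⟩
      · exact absurd ⟨b', h1.symm⟩ hy
  · obtain ⟨S, haS, hbS, hS⟩ := hK i a b h
    by_cases hr : r i ∈ S
    · refine ⟨inB i '' S ∪ (Set.range (inB i))ᶜ, Or.inl ⟨a, haS, rfl⟩, ?_, ?_⟩
      · rintro (⟨b', hb', h'⟩ | h')
        · rw [inB_inj i h'] at hb'
          exact hbS hb'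
        · exact h' ⟨b, rfl⟩
      · intro x hx y hy hxy
        have hy1 : y ∈ Set.range (inB (A := A) i) := by
          by_contra hcon
          exact hy (Or.inr hcon)
        obtain ⟨c, rfl⟩ := hy1
        have hc : c ∉ S := fun hc => hy (Or.inl ⟨c, hc, rfl⟩)
        rcases hx with ⟨x', hx', rfl⟩ | hx
        · obtain ⟨h1, h2⟩ := hS x' hx' c hc ((adj_inB i x' c).1 hxy)
          rw [h1, h2]
          exact ⟨rfl, rfl⟩
        · rcases adj_out hxy.symm with ⟨h1, h2⟩ | ⟨b', h1, _⟩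
          · rw [h2] at hc
            exact absurd hr hc
          · exact absurd ⟨b', h1.symm⟩ hx
    · refine ⟨inB i '' S, ⟨a, haS, rfl⟩, ?_, ?_⟩
      · rintro ⟨b', hb', h'⟩
        rw [inB_inj i h'] at hb'
        exact hbS hb'
      · rintro _ ⟨x', hx', rfl⟩ y hy hxy
        rcases adj_out hxy with ⟨h1, h2⟩ | ⟨b', h1, h2⟩
        · rw [h2] at hx'
          exact absurd hx' hr
        · subst h1
          have hb' : b' ∉ S := fun hb' => hy ⟨b', hb', rfl⟩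
          obtain ⟨h3, h4⟩ := hS x' hx' b' hb' h2
          rw [h3, h4]
          exact ⟨rfl, rfl⟩

lemma base_union (P Q : Set (A ⊕ (Σ i, B i))) : base (P ∪ Q) = base P ∪ base Q := rfl
lemma part_union (P Q : Set (A ⊕ (Σ i, B i))) (i : I) :
    part (P ∪ Q) i = part P i ∪ part Q i := rfl
lemma base_sdiff (P Q : Set (A ⊕ (Σ i, B i))) : base (P \ Q) = base P \ base Q := rfl
lemma part_sdiff (P Q : Set (A ⊕ (Σ i, B i))) (i : I) :
    part (P \ Q) i = part P i \ part Q i := rfl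

lemma base_inl (S : Set A) : base (Sum.inl '' S : Set (A ⊕ (Σ i, B i))) = S := by
  ext a
  constructor
  · rintro ⟨b, hb, h⟩
    rw [← Sum.inl_injective h]; exact hb
  · intro h
    exact ⟨a, h, rfl⟩

lemma part_inl (S : Set A) (i : I) : part (Sum.inl '' S : Set (A ⊕ (Σ i, B i))) i = ∅ := by
  ext b
  constructor
  · rintro ⟨a, _, h⟩
    exact absurd h Sum.inl_ne_inr
  · intro h
    exact absurd h (Set.notMem_empty b)

lemma base_inB (i : I) (S : Set (B i)) : base (inB i '' S : Set (A ⊕ (Σ i, B i))) = ∅ := by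
  ext a
  constructor
  · rintro ⟨b, _, h⟩
    exact absurd h Sum.inr_ne_inl
  · intro h
    exact absurd h (Set.notMem_empty a)

lemma part_inB_same (i : I) (S : Set (B i)) : part (inB i '' S : Set (A ⊕ (Σ i, B i))) i = S := by
  ext b
  constructor
  · rintro ⟨b', hb', h⟩
    rw [← inB_inj i h]; exact hb'
  · intro h
    exact ⟨b, h, rfl⟩

lemma part_inB_ne {i j : I} (hij : j ≠ i) (S : Set (B i)) :
    part (inB i '' S : Set (A ⊕ (Σ i, B i))) j = ∅ := by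
  ext b
  constructor
  · rintro ⟨b', _, h⟩
    have h3 := Sum.inr_injective h
    rw [Sigma.mk.injEq] at h3
    exact absurd h3.1.symm hij
  · intro h
    exact absurd h (Set.notMem_empty b)

end Attach

end Pool.Agent.H19.GR
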