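import Pool.Agent.H19.GR.Graph

set_option autoImplicit false

/-! Product assignments on attached graphs. -/

namespace Pool.Agent.H19.GR

open Pool.Agent.Results.MP_397c7d_co.SemilatticeIdentities (LTerm)

variable {A : Type*} {I : Type*} {B : I → Type*}

/-- Sets all of whose nonempty parts are in the given families. -/
def hat (H : SimpleGraph A) (K : ∀ i, SimpleGraph (B i)) (r : ∀ i, B i) (p : I → A)
    (E0 : Set (Set A)) (E : ∀ i, Set (Set (B i))) : Set (Set (A ⊕ (Σ i, B i))) :=
  {Y | Conn (attach H K r p) Y ∧ (base Y = ∅ ∨ base Y ∈ E0) ∧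
    ∀ i, part Y i = ∅ ∨ part Y i ∈ E i}

variable {H : SimpleGraph A} {K : ∀ i, SimpleGraph (B i)} {r : ∀ i, B i} {p : I → A}

lemma base_disjoint {P Q : Set (A ⊕ (Σ i, B i))} (h : Disjoint P Q) :
    Disjoint (base P) (base Q) := by
  rw [Set.disjoint_left] at h ⊢
  intro a ha hb
  exact h ha hb

lemma part_disjoint {P Q : Set (A ⊕ (Σ i, B i))} (i : I) (h : Disjoint P Q) :
    Disjoint (part P i) (part Q i) := by
  rw [Set.disjoint_left] at h ⊢
  intro a ha hb
  exact h ha hb

lemma DU.base {F : Set (Set (A ⊕ (Σ i, B i)))} {E0 : Set (Set A)}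
    {Y : Set (A ⊕ (Σ i, B i))} (hY : DU F Y)
    (h : ∀ Z ∈ F, Z ⊆ Y → base Z = ∅ ∨ base Z ∈ E0) : DU E0 (base Y) := by
  refine hY.map (fun S => GR.base S) rfl (fun _ _ => rfl) (fun _ _ h => base_disjoint h) ?_
  intro Z hZ hZY
  rcases h Z hZ hZY with h | h
  · rw [h]; exact .empty
  · exact .single h

lemma DU.part {F : Set (Set (A ⊕ (Σ i, B i)))} {i : I} {E : Set (Set (B i))}
    {Y : Set (A ⊕ (Σ i, B i))} (hY : DU F Y)
    (h : ∀ Z ∈ F, Z ⊆ Y → part Z i = ∅ ∨ part Z i ∈ E) : DU E (part Y i) := by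
  refine hY.map (fun S => GR.part S i) rfl (fun _ _ => rfl) (fun _ _ h => part_disjoint i h) ?_
  intro Z hZ hZY
  rcases h Z hZ hZY with h | h
  · rw [h]; exact .empty
  · exact .single h

lemma disjoint_inl_inB (S : Set A) (D : ∀ i, Set (B i)) :
    Disjoint (Sum.inl '' S) (⋃ i, (inB i '' D i : Set (A ⊕ (Σ i, B i)))) := by
  rw [Set.disjoint_left]
  rintro _ ⟨a, _, rfl⟩ h
  obtain ⟨i, b, _, h⟩ := Set.mem_iUnion.1 h
  exact Sum.inr_ne_inl h

lemma disjoint_inB (D : ∀ i, Set (B i)) {i j : I} (hij : i ≠ j) :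
    Disjoint (inB i '' D i : Set (A ⊕ (Σ i, B i))) (inB j '' D j) := by
  rw [Set.disjoint_left]
  rintro _ ⟨a, _, rfl⟩ ⟨b, _, h⟩
  have h3 := Sum.inr_injective h
  rw [Sigma.mk.injEq] at h3
  exact hij h3.1.symm

/-- Assembling a disjoint union from the parts. -/
lemma DU.build [Finite I] {F : Set (Set (A ⊕ (Σ i, B i)))} {E0 : Set (Set A)}
    {E : ∀ i, Set (Set (B i))} (hF0 : ∀ S ∈ E0, Sum.inl '' S ∈ F)
    (hF : ∀ i, ∀ S ∈ E i, inB i '' S ∈ F) {Y : Set (A ⊕ (Σ i, B i))}
    (h0 : DU E0 (GR.base Y)) (h : ∀ i, DU (E i) (GR.part Y i)) : DU F Y := by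
  rw [decomp Y]
  refine (h0.image _ Sum.inl_injective (fun S hS _ => hF0 S hS)).union
    (DU.iUnion _ (fun i => (h i).image _ (inB_inj i) (fun S hS _ => hF i S hS))
      (fun i j hij => disjoint_inB _ hij)) (disjoint_inl_inB _ _)

lemma inl_mem_hat {E0 : Set (Set A)} {E : ∀ i, Set (Set (B i))} {S : Set A}
    (hS : Conn H S) : Sum.inl '' S ∈ hat H K r p E0 E ↔ S ∈ E0 := by
  constructor
  · rintro ⟨_, h | h, _⟩
    · rw [base_inl] at h
      exact absurd h hS.ne_empty
    · rw [base_inl] at h
      exact h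
  · intro h
    refine ⟨(conn_inl S).2 hS, Or.inr ?_, fun i => Or.inl (part_inl S i)⟩
    rw [base_inl]
    exact h

lemma inB_mem_hat {E0 : Set (Set A)} {E : ∀ i, Set (Set (B i))} {i : I} {S : Set (B i)}
    (hS : Conn (K i) S) : inB i '' S ∈ hat H K r p E0 E ↔ S ∈ E i := by
  constructor
  · rintro ⟨_, _, h⟩
    rcases h i with h | h
    · rw [part_inB_same] at h
      exact absurd h hS.ne_empty
    · rw [part_inB_same] at h
      exact h
  · intro h
    refine ⟨(conn_inB i S).2 hS, Or.inl (base_inB i S), fun j => ?_⟩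
    by_cases hj : j = i
    · subst hj
      right
      rw [part_inB_same]
      exact h
    · left
      exact part_inB_ne hj S

lemma hat_mono {E0 F0 : Set (Set A)} {E F : ∀ i, Set (Set (B i))} (h0 : E0 ⊆ F0)
    (h : ∀ i, E i ⊆ F i) : hat H K r p E0 E ⊆ hat H K r p F0 F := by
  rintro Y ⟨h1, h2, h3⟩
  refine ⟨h1, h2.imp_right (fun h => h0 h), fun i => (h3 i).imp_right (fun h' => h i h')⟩

/-- The closure of a family between. -/
lemma cl_subset_hat {F : Set (Set (A ⊕ (Σ i, B i)))} {E0 : Set (Set A)}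
    {E : ∀ i, Set (Set (B i))} (h : F ⊆ hat H K r p E0 E) :
    cl (attach H K r p) F ⊆ hat H K r p (cl H E0) (fun i => cl (K i) (E i)) := by
  rintro Y ⟨hY, hD⟩
  refine ⟨hY, ?_, fun i => ?_⟩
  · rcases Set.eq_empty_or_nonempty (base Y) with hb | hb
    · exact Or.inl hb
    · exact Or.inr ⟨conn_base hY hb, hD.base (fun Z hZ _ => (h hZ).2.1)⟩
  · rcases Set.eq_empty_or_nonempty (part Y i) with hb | hb
    · exact Or.inl hb
    · exact Or.inr ⟨conn_part hY hb, hD.part (fun Z hZ _ => (h hZ).2.2 i)⟩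

lemma hat_subset_cl [Finite I] {F : Set (Set (A ⊕ (Σ i, B i)))} {E0 : Set (Set A)}
    {E : ∀ i, Set (Set (B i))} (hF0 : ∀ S ∈ E0, Sum.inl '' S ∈ F)
    (hF : ∀ i, ∀ S ∈ E i, inB i '' S ∈ F) :
    hat H K r p (cl H E0) (fun i => cl (K i) (E i)) ⊆ cl (attach H K r p) F := by
  rintro Y ⟨hY, h0, h⟩
  refine ⟨hY, DU.build hF0 hF ?_ (fun i => ?_)⟩
  · rcases h0 with h0 | h0
    · rw [h0]; exact .empty
    · exact h0.2
  · rcases h i with h | h
    · rw [h]; exact .empty
    · exact h.2

lemma op_hat_subset {E0 : Set (Set A)} {E : ∀ i, Set (Set (B i))} :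
    op (attach H K r p) (hat H K r p E0 E) ⊆
      hat H K r p (op H E0) (fun i => op (K i) (E i)) := by
  rintro Y ⟨hY, hD⟩
  refine ⟨hY, ?_, fun i => ?_⟩
  · rcases Set.eq_empty_or_nonempty (base Y) with hb | hb
    · exact Or.inl hb
    · refine Or.inr ⟨conn_base hY hb, fun hcon => hD ?_⟩
      let f : Set A → Set (A ⊕ (Σ i, B i)) := fun S =>
        {x | x ∈ Y ∧ ((∃ a ∈ S, x = .inl a) ∨ (∃ i b, p i ∈ S ∧ x = .inr ⟨i, b⟩))}
      have hfY : f (base Y) = Y := by
        ext x
        constructor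
        · intro hx; exact hx.1
        · intro hx
          refine ⟨hx, ?_⟩
          rcases x with a | ⟨i, b⟩
          · exact Or.inl ⟨a, hx, rfl⟩
          · exact Or.inr ⟨i, b, (gate_base hY ⟨b, hx⟩ hb).2, rfl⟩
      rw [← hfY]
      refine hcon.map f ?_ ?_ ?_ ?_
      · ext x
        constructor
        · rintro ⟨_, ⟨a, ha, _⟩ | ⟨i, b, hi, _⟩⟩
          · exact ha
          · exact hi
        · intro h; exact absurd h (Set.notMem_empty x)
      · intro P Q
        ext x
        constructor
        · rintro ⟨hx, ⟨a, ha | ha, h⟩ | ⟨i, b, hi | hi, h⟩⟩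
          · exact Or.inl ⟨hx, Or.inl ⟨a, ha, h⟩⟩
          · exact Or.inr ⟨hx, Or.inl ⟨a, ha, h⟩⟩
          · exact Or.inl ⟨hx, Or.inr ⟨i, b, hi, h⟩⟩
          · exact Or.inr ⟨hx, Or.inr ⟨i, b, hi, h⟩⟩
        · rintro (⟨hx, ⟨a, ha, h⟩ | ⟨i, b, hi, h⟩⟩ | ⟨hx, ⟨a, ha, h⟩ | ⟨i, b, hi, h⟩⟩)
          · exact ⟨hx, Or.inl ⟨a, Or.inl ha, h⟩⟩
          · exact ⟨hx, Or.inr ⟨i, b, Or.inl hi, h⟩⟩
          · exact ⟨hx, Or.inl ⟨a, Or.inr ha, h⟩⟩
          · exact ⟨hx, Or.inr ⟨i, b, Or.inr hi, h⟩⟩
      · intro P Q hPQ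
        rw [Set.disjoint_left] at hPQ ⊢
        rintro x ⟨_, h1⟩ ⟨_, h2⟩
        rcases h1 with ⟨a, ha, rfl⟩ | ⟨i, b, hi, rfl⟩
        · rcases h2 with ⟨a', ha', h2⟩ | ⟨j, b', _, h2⟩
          · rw [← Sum.inl_injective h2] at ha'
            exact hPQ ha ha'
          · exact Sum.inl_ne_inr h2
        · rcases h2 with ⟨a', _, h2⟩ | ⟨j, b', hj, h2⟩
          · exact Sum.inr_ne_inl h2
          · have h3 := Sum.inr_injective h2
            rw [Sigma.mk.injEq] at h3
            rw [← h3.1] at hj
            exact hPQ hi hj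
      · rintro Z ⟨hZ, hZE⟩ hZY
        have hb1 : base (f Z) = Z := by
          ext a
          constructor
          · rintro ⟨_, ⟨a', ha', h⟩ | ⟨i, b, _, h⟩⟩
            · rw [Sum.inl_injective h]; exact ha'
            · exact absurd h Sum.inl_ne_inr
          · intro h
            exact ⟨hZY h, Or.inl ⟨a, h, rfl⟩⟩
        have hp1 : ∀ i, (part (f Z) i).Nonempty → part (f Z) i = part Y i ∧ p i ∈ Z := by
          rintro i ⟨b, hbY, ⟨a', _, h⟩ | ⟨j, b', hj, h⟩⟩
          · exact absurd h Sum.inr_ne_inl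
          · have h3 := Sum.inr_injective h
            rw [Sigma.mk.injEq] at h3
            rw [← h3.1] at hj
            refine ⟨?_, hj⟩
            ext c
            exact ⟨fun hc => hc.1, fun hc => ⟨hc, Or.inr ⟨i, c, hj, rfl⟩⟩⟩
        apply DU.single
        refine ⟨?_, fun hcon2 => ?_⟩
        · rw [decomp (f Z), hb1]
          refine conn_mk hZ (fun i hne => ?_)
          obtain ⟨h1, h2⟩ := hp1 i hne
          rw [h1] at hne ⊢
          exact ⟨conn_part hY hne, (gate_base hY hne hb).1, h2⟩
        · rcases hcon2.2.1 with h | h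
          · rw [hb1] at h
            exact hZ.ne_empty h
          · rw [hb1] at h
            exact hZE h
  · rcases Set.eq_empty_or_nonempty (part Y i) with hb | hb
    · exact Or.inl hb
    · refine Or.inr ⟨conn_part hY hb, fun hcon => hD ?_⟩
      by_cases hsub : Y ⊆ Set.range (inB i)
      · have hYi : Y = inB i '' part Y i := by
          apply Set.Subset.antisymm
          · intro y hy
            obtain ⟨b', rfl⟩ := hsub hy
            exact ⟨b', hy, rfl⟩
          · rintro _ ⟨b', hb', rfl⟩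
            exact hb'
        rw [hYi]
        refine hcon.image _ (inB_inj i) ?_
        rintro Z ⟨hZ, hZE⟩ _
        exact ⟨(conn_inB i Z).2 hZ, fun h => hZE ((inB_mem_hat hZ).1 h)⟩
      · obtain ⟨hr, hp⟩ := gate hY hb hsub
        have hbase : (base Y).Nonempty := ⟨_, hp⟩
        let f : Set (B i) → Set (A ⊕ (Σ i, B i)) := fun S =>
          inB i '' S ∪ {x | r i ∈ S ∧ x ∈ Y ∧ x ∉ Set.range (inB i)}
        have hfY : f (part Y i) = Y := by
          ext x
          constructor
          · rintro (⟨b, hb, rfl⟩ | h)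
            · exact hb
            · exact h.2.1
          · intro hx
            by_cases hxr : x ∈ Set.range (inB i)
            · obtain ⟨b, rfl⟩ := hxr
              exact Or.inl ⟨b, hx, rfl⟩
            · exact Or.inr ⟨hr, hx, hxr⟩
        rw [← hfY]
        refine hcon.map f ?_ ?_ ?_ ?_
        · ext x
          constructor
          · rintro (⟨b, hb, rfl⟩ | h)
            · exact hb
            · exact absurd h.1 (Set.notMem_empty _)
          · intro h; exact absurd h (Set.notMem_empty x)
        · intro P Q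
          ext x
          constructor
          · rintro (⟨b, hb | hb, rfl⟩ | ⟨h | h, h'⟩)
            · exact Or.inl (Or.inl ⟨b, hb, rfl⟩)
            · exact Or.inr (Or.inl ⟨b, hb, rfl⟩)
            · exact Or.inl (Or.inr ⟨h, h'⟩)
            · exact Or.inr (Or.inr ⟨h, h'⟩)
          · rintro ((⟨b, hb, rfl⟩ | ⟨h, h'⟩) | (⟨b, hb, rfl⟩ | ⟨h, h'⟩))
            · exact Or.inl ⟨b, Or.inl hb, rfl⟩
            · exact Or.inr ⟨Or.inl h, h'⟩
            · exact Or.inl ⟨b, Or.inr hb, rfl⟩
            · exact Or.inr ⟨Or.inr h, h'⟩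
        · intro P Q hPQ
          rw [Set.disjoint_left] at hPQ ⊢
          rintro x (⟨b, hb, rfl⟩ | ⟨h, h', h''⟩) (⟨b', hb', h2⟩ | ⟨h2, h2', h2''⟩)
          · rw [inB_inj i h2] at hb'
            exact hPQ hb hb'
          · exact h2'' ⟨b, rfl⟩
          · exact h'' ⟨b', h2⟩
          · exact hPQ h h2
        · rintro Z ⟨hZ, hZE⟩ hZY
          have hpi : part (f Z) i = Z := by
            ext b
            constructor
            · rintro (⟨b', hb', h⟩ | ⟨_, _, h⟩)
              · rw [← inB_inj i h]; exact hb'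
              · exact absurd ⟨b, rfl⟩ h
            · intro h
              exact Or.inl ⟨b, h, rfl⟩
          apply DU.single
          refine ⟨?_, fun hcon2 => ?_⟩
          · by_cases hrZ : r i ∈ Z
            · have hb1 : base (f Z) = base Y := by
                ext a
                constructor
                · rintro (⟨b', _, h⟩ | ⟨_, h, _⟩)
                  · exact absurd h Sum.inr_ne_inl
                  · exact h
                · intro h
                  exact Or.inr ⟨hrZ, h, fun ⟨b', h'⟩ => Sum.inr_ne_inl h'⟩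
              rw [decomp (f Z), hb1]
              refine conn_mk (conn_base hY hbase) (fun j hne => ?_)
              by_cases hj : j = i
              · subst hj
                rw [hpi]
                exact ⟨hZ, hrZ, hp⟩
              · have hpj : part (f Z) j = part Y j := by
                  ext b
                  constructor
                  · rintro (⟨b', _, h⟩ | ⟨_, h, _⟩)
                    · have h3 := Sum.inr_injective h
                      rw [Sigma.mk.injEq] at h3
                      exact absurd h3.1.symm hj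
                    · exact h
                  · intro h
                    refine Or.inr ⟨hrZ, h, ?_⟩
                    rintro ⟨b', h'⟩
                    have h3 := Sum.inr_injective h'
                    rw [Sigma.mk.injEq] at h3
                    exact hj h3.1.symm
                rw [hpj] at hne ⊢
                exact ⟨conn_part hY hne, gate_base hY hne hbase⟩
            · have : f Z = inB i '' Z := by
                ext x
                constructor
                · rintro (h | ⟨h, _⟩)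
                  · exact h
                  · exact absurd h hrZ
                · intro h
                  exact Or.inl h
              rw [this]
              exact (conn_inB i Z).2 hZ
          · rcases hcon2.2.2 i with h | h
            · rw [hpi] at h
              exact hZ.ne_empty h
            · rw [hpi] at h
              exact hZE h

lemma inl_mem_op {E0 : Set (Set A)} {E : ∀ i, Set (Set (B i))} {S : Set A}
    (hS : S ∈ op H E0) : Sum.inl '' S ∈ op (attach H K r p) (hat H K r p E0 E) := by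
  refine ⟨(conn_inl S).2 hS.1, fun hD => hS.2 ?_⟩
  have h := hD.comap (Sum.inl : A → A ⊕ (Σ i, B i)) (Set.image_subset_range _ _)
    (B := {Z | Conn H Z ∧ Z ∉ E0}) ?_
  · rwa [Set.preimage_image_eq _ Sum.inl_injective] at h
  · rintro Y ⟨hY, hYE⟩
    have hY' := (conn_inl Y).1 hY
    exact ⟨hY', fun h => hYE ((inl_mem_hat hY').2 h)⟩

lemma inB_mem_op {E0 : Set (Set A)} {E : ∀ i, Set (Set (B i))} {i : I} {S : Set (B i)}
    (hS : S ∈ op (K i) (E i)) : inB i '' S ∈ op (attach H K r p) (hat H K r p E0 E) := by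
  refine ⟨(conn_inB i S).2 hS.1, fun hD => hS.2 ?_⟩
  have h := hD.comap (inB i : B i → A ⊕ (Σ i, B i)) (Set.image_subset_range _ _)
    (B := {Z | Conn (K i) Z ∧ Z ∉ E i}) ?_
  · rwa [Set.preimage_image_eq _ (inB_inj i)] at h
  · rintro Y ⟨hY, hYE⟩
    have hY' := (conn_inB i Y).1 hY
    exact ⟨hY', fun h => hYE ((inB_mem_hat hY').2 h)⟩

lemma cl_op_hat [Finite I] {E0 : Set (Set A)} {E : ∀ i, Set (Set (B i))} :
    cl (attach H K r p) (op (attach H K r p) (hat H K r p E0 E)) =
      hat H K r p (cl H (op H E0)) (fun i => cl (K i) (op (K i) (E i))) := by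
  apply Set.Subset.antisymm
  · exact cl_subset_hat op_hat_subset
  · exact hat_subset_cl (fun S hS => inl_mem_op hS) (fun i S hS => inB_mem_op hS)

lemma cl_union_hat [Finite I] {E0 F0 : Set (Set A)} {E F : ∀ i, Set (Set (B i))}
    (hE0 : ∀ S ∈ E0, Conn H S) (hF0 : ∀ S ∈ F0, Conn H S)
    (hE : ∀ i, ∀ S ∈ E i, Conn (K i) S) (hF : ∀ i, ∀ S ∈ F i, Conn (K i) S) :
    cl (attach H K r p) (hat H K r p E0 E ∪ hat H K r p F0 F) =
      hat H K r p (cl H (E0 ∪ F0)) (fun i => cl (K i) (E i ∪ F i)) := by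
  apply Set.Subset.antisymm
  · apply cl_subset_hat
    exact Set.union_subset (hat_mono Set.subset_union_left (fun i => Set.subset_union_left))
      (hat_mono Set.subset_union_right (fun i => Set.subset_union_right))
  · apply hat_subset_cl
    · rintro S (hS | hS)
      · exact Or.inl ((inl_mem_hat (hE0 S hS)).2 hS)
      · exact Or.inr ((inl_mem_hat (hF0 S hS)).2 hS)
    · rintro i S (hS | hS)
      · exact Or.inl ((inB_mem_hat (hE i S hS)).2 hS)
      · exact Or.inr ((inB_mem_hat (hF i S hS)).2 hS)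

lemma hat_inter {E0 F0 : Set (Set A)} {E F : ∀ i, Set (Set (B i))} :
    hat H K r p E0 E ∩ hat H K r p F0 F = hat H K r p (E0 ∩ F0) (fun i => E i ∩ F i) := by
  ext Y
  constructor
  · rintro ⟨⟨h1, h2, h3⟩, ⟨_, h2', h3'⟩⟩
    refine ⟨h1, ?_, fun i => ?_⟩
    · rcases h2 with h | h
      · exact Or.inl h
      · rcases h2' with h' | h'
        · exact Or.inl h'
        · exact Or.inr ⟨h, h'⟩
    · rcases h3 i with h | h
      · exact Or.inl h
      · rcases h3' i with h' | h'
        · exact Or.inl h'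
        · exact Or.inr ⟨h, h'⟩
  · intro h
    exact ⟨hat_mono Set.inter_subset_left (fun i => Set.inter_subset_left) h,
      hat_mono Set.inter_subset_right (fun i => Set.inter_subset_right) h⟩

/-- The product assignment is regular closed. -/
lemma reg_hat [Finite I] {X0 : ℕ → Set (Set A)} {X : ∀ i, ℕ → Set (Set (B i))}
    (h0 : Reg H X0) (h : ∀ i, Reg (K i) (X i)) :
    Reg (attach H K r p) (fun n => hat H K r p (X0 n) (fun i => X i n)) := by
  intro n
  rw [cl_op_hat, h0 n]
  congr 1
  funext i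
  exact h i n

/-- Values of the product assignment. -/
lemma ev_hat [Finite I] {X0 : ℕ → Set (Set A)} {X : ∀ i, ℕ → Set (Set (B i))}
    (h0 : Reg H X0) (h : ∀ i, Reg (K i) (X i)) (t : LTerm) :
    ev (attach H K r p) (fun n => hat H K r p (X0 n) (fun i => X i n)) t =
      hat H K r p (ev H X0 t) (fun i => ev (K i) (X i) t) := by
  induction t with
  | var n => rfl
  | sup a b iha ihb =>
    simp only [ev]
    rw [iha, ihb]
    exact cl_union_hat (fun S hS => h0.conn a hS) (fun S hS => h0.conn b hS)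
      (fun i S hS => (h i).conn a hS) (fun i S hS => (h i).conn b hS)
  | inf a b iha ihb =>
    simp only [ev]
    rw [iha, ihb, hat_inter, cl_op_hat]

end Pool.Agent.H19.GR
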