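import Pool.Agent.H19.GR.Chain

set_option autoImplicit false

/-! The main step: a new root joined to the roots of the chains. -/

namespace Pool.Agent.H19.GR

open Pool.Agent.Results.MP_397c7d_co.SemilatticeIdentities
  (LTerm code code_inj Mtd NonInf Der Sub exists_mtd finite_sub)

section Star

variable {J : Type} (R : J → Rooted)

/-- The vertex type. -/
abbrev SV : Type := Unit ⊕ (Σ j, (R j).V)

/-- The star graph. -/
def SG : SimpleGraph (SV R) :=
  attach (⊥ : SimpleGraph Unit) (fun j => (R j).G) (fun j => (R j).r) (fun _ => ())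

/-- The product assignment off the root. -/
def SM (n : ℕ) : Set (Set (SV R)) :=
  hat (⊥ : SimpleGraph Unit) (fun j => (R j).G) (fun j => (R j).r) (fun _ => ()) ∅
    (fun j => (R j).X n)

/-- Sets through the root with an empty part. -/
def SD : Set (Set (SV R)) := {Y | Conn (SG R) Y ∧ Sum.inl () ∈ Y ∧ ∃ j, part Y j = ∅}

/-- All connected sets through the root. -/
def SC : Set (Set (SV R)) := {Y | Conn (SG R) Y ∧ Sum.inl () ∈ Y}

open Classical in
/-- The assignment. -/
noncomputable def SX (s : LTerm) (n : ℕ) : Set (Set (SV R)) :=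
  if Mtd (.var n) s then SC R ∪ SM R n
  else {Y | Conn (SG R) Y ∧ Sum.inl () ∈ Y ∧ ∃ j, part Y j = ∅ ∨ part Y j ∈ (R j).X n} ∪ SM R n

variable {R}

lemma reg_SM [Finite J] : Reg (SG R) (SM R) :=
  reg_hat (X0 := fun _ => ∅) (reg_empty _) (fun j => (R j).reg)

lemma ev_SM [Finite J] (t : LTerm) : ev (SG R) (SM R) t =
    hat (⊥ : SimpleGraph Unit) (fun j => (R j).G) (fun j => (R j).r) (fun _ => ()) ∅
      (fun j => ev (R j).G (R j).X t) := by
  have h := ev_hat (X0 := fun _ => (∅ : Set (Set Unit))) (H := (⊥ : SimpleGraph Unit))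
    (K := fun j => (R j).G) (r := fun j => (R j).r) (p := fun _ => ()) (X := fun j => (R j).X)
    (reg_empty _) (fun j => (R j).reg) t
  rw [ev_empty] at h
  exact h

lemma not_root {Y : Set (SV R)} {E : ∀ j, Set (Set (R j).V)}
    (hY : Y ∈ hat (⊥ : SimpleGraph Unit) (fun j => (R j).G) (fun j => (R j).r) (fun _ => ()) ∅ E) :
    Sum.inl () ∉ Y := by
  intro h
  rcases hY.2.1 with h1 | h1
  · have : () ∈ base Y := h
    rw [h1] at this
    exact this
  · exact h1

lemma inB_mem_star {E : ∀ j, Set (Set (R j).V)} {j : J} {S : Set (R j).V}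
    (hS : Conn (R j).G S) : (inB j '' S : Set (SV R)) ∈ hat (⊥ : SimpleGraph Unit)
      (fun j => (R j).G) (fun j => (R j).r) (fun _ => ()) ∅ E ↔ S ∈ E j :=
  inB_mem_hat (K := fun j => (R j).G) (i := j) hS

lemma isOp_SC : IsOp (SG R) (SC R) := by
  rintro Y ⟨hY, hc⟩
  refine ⟨hY, fun hD => ?_⟩
  obtain ⟨Z, hZ, hcZ, _, _⟩ := hD.extract hc
  exact hZ.2 ⟨hZ.1, hcZ⟩

lemma isOp_SD : IsOp (SG R) (SD R) := by
  rintro Y ⟨hY, hc, j, hj⟩
  refine ⟨hY, fun hD => ?_⟩
  obtain ⟨Z, hZ, hcZ, hZY, _⟩ := hD.extract hc
  refine hZ.2 ⟨hZ.1, hcZ, j, ?_⟩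
  apply Set.eq_empty_of_forall_notMem
  intro b hb
  have : b ∈ part Y j := hZY hb
  rw [hj] at this
  exact this

lemma SD_subset (s : LTerm) (n : ℕ) : SD R ⊆ SX R s n := by
  rintro Y ⟨hY, hc, j, hj⟩
  unfold SX
  split_ifs
  · exact Or.inl ⟨hY, hc⟩
  · exact Or.inl ⟨hY, hc, j, Or.inl hj⟩

lemma SM_subset (s : LTerm) (n : ℕ) : SM R n ⊆ SX R s n := by
  intro Y hY
  unfold SX
  split_ifs
  · exact Or.inr hY
  · exact Or.inr hY

lemma mem_SM_of_mem_SX {s : LTerm} {n : ℕ} {Y : Set (SV R)} (hY : Y ∈ SX R s n)
    (hc : Sum.inl () ∉ Y) : Y ∈ SM R n := by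
  unfold SX at hY
  split_ifs at hY
  · rcases hY with h | h
    · exact absurd h.2 hc
    · exact h
  · rcases hY with h | h
    · exact absurd h.2.1 hc
    · exact h

lemma SX_conn {s : LTerm} {n : ℕ} {Y : Set (SV R)} (hY : Y ∈ SX R s n) : Conn (SG R) Y := by
  unfold SX at hY
  split_ifs at hY
  · rcases hY with h | h
    · exact h.1
    · exact h.1
  · rcases hY with h | h
    · exact h.1
    · exact h.1

/-- Off the root the values are those of the product. -/
lemma ev_off [Finite J] (s t : LTerm) {Y : Set (SV R)} (hc : Sum.inl () ∉ Y) :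
    Y ∈ ev (SG R) (SX R s) t ↔ Y ∈ hat (⊥ : SimpleGraph Unit) (fun j => (R j).G)
      (fun j => (R j).r) (fun _ => ()) ∅ (fun j => ev (R j).G (R j).X t) := by
  rw [← ev_SM]
  refine ev_local (D := {x | x ≠ Sum.inl ()}) ?_ t Y ?_
  · intro n Z hZ
    refine ⟨fun h => mem_SM_of_mem_SX h (fun hcZ => hZ hcZ rfl), fun h => SM_subset s n h⟩
  · intro x hx hxc
    rw [hxc] at hx
    exact hc hx

lemma root_notMem_inB {j : J} (S : Set (R j).V) : (Sum.inl () : SV R) ∉ inB j '' S := by
  rintro ⟨b, _, h⟩
  exact Sum.inr_ne_inl h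

/-- Removing a part of a connected set through the root. -/
lemma conn_remove {Y : Set (SV R)} (hY : Conn (SG R) Y) (hc : Sum.inl () ∈ Y) (j : J) :
    Conn (SG R) (Y \ inB j '' part Y j) ∧ Sum.inl () ∈ Y \ inB j '' part Y j ∧
      part (Y \ inB j '' part Y j) j = ∅ := by
  have hc' : (Sum.inl () : SV R) ∈ Y \ inB j '' part Y j := ⟨hc, root_notMem_inB _⟩
  have hj : part (Y \ inB j '' part Y j) j = ∅ := by
    rw [part_sdiff, part_inB_same, Set.sdiff_self]
  refine ⟨?_, hc', hj⟩
  have hne : (base Y).Nonempty := ⟨(), hc⟩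
  have hb : base (Y \ inB j '' part Y j) = Set.univ := unit_eq ⟨(), hc'⟩
  rw [decomp (Y \ inB j '' part Y j)]
  refine conn_mk ?_ (fun i hi => ?_)
  · rw [hb]; exact conn_univ_unit _
  · by_cases hij : i = j
    · subst hij
      rw [hj] at hi
      exact absurd hi Set.not_nonempty_empty
    · have h1 : part (Y \ inB j '' part Y j) i = part Y i := by
        rw [part_sdiff, part_inB_ne hij, Set.sdiff_empty]
      rw [h1] at hi ⊢
      refine ⟨conn_part hY hi, (gate_base hY hi hne).1, ?_⟩
      rw [hb]
      trivial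

lemma inB_part_subset (Y : Set (SV R)) (j : J) : inB j '' part Y j ⊆ Y := by
  rintro _ ⟨b, hb, rfl⟩
  exact hb

lemma closed_SX [Finite J] (s : LTerm) (n : ℕ) : cl (SG R) (SX R s n) ⊆ SX R s n := by
  rintro Y ⟨hY, hD⟩
  by_cases hc : Sum.inl () ∈ Y
  · by_cases hn : Mtd (.var n) s
    · unfold SX
      rw [if_pos hn]
      exact Or.inl ⟨hY, hc⟩
    · obtain ⟨Z, hZ, hcZ, hZY, hrest⟩ := hD.extract hc
      have hZ' : ∃ j, part Z j = ∅ ∨ part Z j ∈ (R j).X n := by
        unfold SX at hZ
        rw [if_neg hn] at hZ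
        rcases hZ with h | h
        · exact h.2.2
        · exact absurd hcZ (not_root h)
      obtain ⟨j, hj⟩ := hZ'
      have h1 : DU ((R j).X n) (part Z j) := by
        rcases hj with h | h
        · rw [h]; exact .empty
        · exact .single h
      have h2 : DU ((R j).X n) (part (Y \ Z) j) := by
        refine hrest.part (fun T hT hTY => ?_)
        have hcT : Sum.inl () ∉ T := fun h => (hTY h).2 hcZ
        exact (mem_SM_of_mem_SX hT hcT).2.2 j
      have h3 : DU ((R j).X n) (part Y j) := by
        have h4 := h1.union h2 (by rw [part_sdiff]; exact disjoint_sdiff_self_right)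
        have h5 : part Z j ∪ part (Y \ Z) j = part Y j := by
          rw [part_sdiff]
          exact Set.union_sdiff_cancel (fun b hb => hZY hb)
        rwa [h5] at h4
      unfold SX
      rw [if_neg hn]
      refine Or.inl ⟨hY, hc, j, ?_⟩
      rcases Set.eq_empty_or_nonempty (part Y j) with h | h
      · exact Or.inl h
      · right
        exact (R j).reg.closed (.var n) ⟨conn_part hY h, h3⟩
  · apply SM_subset
    refine reg_SM.closed (.var n) ⟨hY, hD.restrict (fun T hT hTY => ?_)⟩
    exact mem_SM_of_mem_SX hT (fun h => hc (hTY h))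

lemma reg_SX [Finite J] (s : LTerm) : Reg (SG R) (SX R s) := by
  intro n
  apply Set.Subset.antisymm
  · exact (cl_mono (op_subset _)).trans (closed_SX s n)
  · have hM : SM R n ⊆ cl (SG R) (op (SG R) (SX R s n)) := by
      rw [← reg_SM n]
      exact cl_mono (op_mono (SM_subset s n))
    intro Y hY
    by_cases hc : Sum.inl () ∈ Y
    · by_cases hn : Mtd (.var n) s
      · have h1 : SC R ⊆ SX R s n := by
          intro Z hZ
          unfold SX
          rw [if_pos hn]
          exact Or.inl hZ
        have hYc : Y ∈ SC R := ⟨SX_conn hY, hc⟩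
        exact ⟨hYc.1, .single (isOp_SC.subset_op h1 hYc)⟩
      · have hYconn := SX_conn hY
        have hY' : ∃ j, part Y j = ∅ ∨ part Y j ∈ (R j).X n := by
          unfold SX at hY
          rw [if_neg hn] at hY
          rcases hY with h | h
          · exact h.2.2
          · exact absurd hc (not_root h)
        obtain ⟨j, hj⟩ := hY'
        obtain ⟨h1, h2, h3⟩ := conn_remove hYconn hc j
        have h4 : (Y \ inB j '' part Y j) ∈ op (SG R) (SX R s n) :=
          isOp_SD.subset_op (SD_subset s n) ⟨h1, h2, j, h3⟩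
        rcases hj with hj | hj
        · rw [hj, Set.image_empty, Set.sdiff_empty] at h4
          exact ⟨hYconn, .single h4⟩
        · have h5 : (inB j '' part Y j : Set (SV R)) ∈ SM R n := by
            have hconn : Conn (R j).G (part Y j) := (R j).reg.conn (.var n) hj
            exact (inB_mem_star hconn).2 hj
          have h6 := (hM h5).2
          have h7 := (DU.single h4).union h6 disjoint_sdiff_self_left
          rw [Set.sdiff_union_of_subset (inB_part_subset Y j)] at h7
          exact ⟨hYconn, h7⟩
    · exact hM (mem_SM_of_mem_SX hY hc)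

/-- The positive part. -/
lemma star_pos [Finite J] {s : LTerm} (hσ : ∀ σ, Mtd σ s → (∃ a b, σ = .sup a b) →
    ∃ j, Pos {σ} (R j)) {Y : Set (SV R)} (hY : Conn (SG R) Y) (hc : Sum.inl () ∈ Y) :
    Y ∈ ev (SG R) (SX R s) s := by
  have hX := reg_SX (R := R) s
  refine Reg.subset_of_mtd isOp_SC ?_ ⟨hY, hc⟩
  intro σ hm
  cases hσc : σ with
  | var n =>
    subst hσc
    intro Z hZ
    change Z ∈ SX R s n
    unfold SX
    rw [if_pos hm]
    exact Or.inl hZ
  | sup a b =>
    subst hσc
    obtain ⟨j, hj⟩ := hσ _ hm ⟨a, b, rfl⟩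
    rintro Z ⟨hZ, hcZ⟩
    obtain ⟨h1, h2, h3⟩ := conn_remove hZ hcZ j
    have h4 : (Z \ inB j '' part Z j) ∈ ev (SG R) (SX R s) (.sup a b) :=
      subset_ev_of_var isOp_SD (SD_subset s) _ ⟨h1, h2, j, h3⟩
    apply hX.closed
    refine ⟨hZ, ?_⟩
    have h5 : DU (ev (SG R) (SX R s) (.sup a b)) (inB j '' part Z j) := by
      rcases Set.eq_empty_or_nonempty (part Z j) with h | h
      · rw [h, Set.image_empty]; exact .empty
      · apply DU.single
        rw [ev_off s _ (root_notMem_inB _)]
        have hconn := conn_part hZ h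
        have hroot := (gate_base hZ h ⟨(), hcZ⟩).1
        exact (inB_mem_star hconn).2 (hj _ hconn hroot _ rfl)
    have h7 := (DU.single h4).union h5 disjoint_sdiff_self_left
    rwa [Set.sdiff_union_of_subset (inB_part_subset Z j)] at h7
  | inf a b =>
    subst hσc
    exact absurd hm.nonInf (fun h => h)

/-- The negative part. -/
lemma star_neg [Finite J] {s : LTerm} {L : Set LTerm} {N : ℕ}
    (T : ∀ j, LTerm → Set (R j).V) (hgood : ∀ j, Good L N (R j) (T j))
    (hL : ∀ u ∈ L, NonInf u ∧ ¬ Der s u)
    (hL2 : ∀ u ∈ L, ∀ v, Sub v u → NonInf v → ¬ Der s v → v ∈ L) :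
    ∀ M, ∀ u ∈ L, code u < N → code u < M → ∀ Y, Conn (SG R) Y → Sum.inl () ∈ Y →
      (∀ j, part Y j ⊆ T j u ∧ DU (ev (R j).G (R j).X u) (T j u \ part Y j)) →
      Y ∉ ev (SG R) (SX R s) u := by
  have hX := reg_SX (R := R) s
  intro M
  induction M with
  | zero => intro u _ _ h; exact absurd h (Nat.not_lt_zero _)
  | succ M IHM =>
    intro u hu huN huM
    -- the parts are never unions of members of the value of `u`
    have hfull : ∀ Y : Set (SV R), Conn (SG R) Y → Sum.inl () ∈ Y →
        (∀ j, part Y j ⊆ T j u ∧ DU (ev (R j).G (R j).X u) (T j u \ part Y j)) →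
        ∀ j, ¬ DU (ev (R j).G (R j).X u) (part Y j) := by
      intro Y _ _ hF j hD
      obtain ⟨h1, h2⟩ := hF j
      have h3 := hD.union h2 disjoint_sdiff_self_right
      rw [Set.union_sdiff_cancel h1] at h3
      obtain ⟨_, h4, h5⟩ := (hgood j).2.1 u hu huN
      exact h5 ((R j).reg.closed u ⟨h4, h3⟩)
    -- removing blocks
    have hrem : ∀ Y Z : Set (SV R), Sum.inl () ∈ Z → Z ⊆ Y →
        (∀ j, part Y j ⊆ T j u ∧ DU (ev (R j).G (R j).X u) (T j u \ part Y j)) →
        DU (ev (SG R) (SX R s) u) (Y \ Z) →
        (∀ j, part Z j ⊆ T j u ∧ DU (ev (R j).G (R j).X u) (T j u \ part Z j)) := by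
      intro Y Z hcZ hZY hF hD j
      obtain ⟨h1, h2⟩ := hF j
      have hZYj : part Z j ⊆ part Y j := fun b hb => hZY hb
      refine ⟨hZYj.trans h1, ?_⟩
      have h3 : DU (ev (R j).G (R j).X u) (part (Y \ Z) j) := by
        refine hD.part (fun P hP hPY => ?_)
        have hcP : Sum.inl () ∉ P := fun h => (hPY h).2 hcZ
        exact ((ev_off s u hcP).1 hP).2.2 j
      have h4 := h2.union h3 ?_
      · have h5 : T j u \ part Y j ∪ part (Y \ Z) j = T j u \ part Z j := by
          ext b
          constructor
          · rintro (⟨h, h'⟩ | ⟨h, h'⟩)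
            · exact ⟨h, fun h'' => h' (hZYj h'')⟩
            · exact ⟨h1 h, h'⟩
          · rintro ⟨h, h'⟩
            by_cases hb : b ∈ part Y j
            · exact Or.inr ⟨hb, h'⟩
            · exact Or.inl ⟨h, hb⟩
        rwa [h5] at h4
      · rw [Set.disjoint_left]
        rintro b ⟨_, h'⟩ ⟨h, _⟩
        exact h' h
    have key : ∀ a : LTerm, Sub a u → ¬ Der s a →
        ev (SG R) (SX R s) a ⊆ ev (SG R) (SX R s) u →
        ∀ Y, Conn (SG R) Y → Sum.inl () ∈ Y →
          (∀ j, part Y j ⊆ T j u ∧ DU (ev (R j).G (R j).X u) (T j u \ part Y j)) →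
          Y ∉ ev (SG R) (SX R s) a := by
      intro a
      induction a with
      | var n =>
        intro _ hnd hsub Y hY hc hF hmem
        have hn : ¬ Mtd (.var n) s := fun h => hnd (h.der (.var n))
        have hmem' : Y ∈ SX R s n := hmem
        unfold SX at hmem'
        rw [if_neg hn] at hmem'
        rcases hmem' with ⟨_, _, j, hj⟩ | h
        · refine hfull Y hY hc hF j ?_
          rcases hj with h | h
          · rw [h]; exact .empty
          · apply DU.single
            have hconn : Conn (R j).G (part Y j) := (R j).reg.conn (.var n) h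
            have h1 : (inB j '' part Y j : Set (SV R)) ∈ SX R s n :=
              SM_subset s n ((inB_mem_star hconn).2 h)
            have h2 := hsub h1
            rw [ev_off s u (root_notMem_inB _)] at h2
            exact (inB_mem_star hconn).1 h2
        · exact not_root h hc
      | sup a b iha ihb =>
        intro hsu hnd hsub Y hY hc hF hmem
        obtain ⟨Z, hZ, hcZ, hZY, hrest⟩ := (hmem.2).extract hc
        have hsub1 : ev (SG R) (SX R s) a ∪ ev (SG R) (SX R s) b ⊆ ev (SG R) (SX R s) u :=
          (Set.union_subset (hX.left_sup a b) (hX.right_sup a b)).trans hsub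
        have hF' := hrem Y Z hcZ hZY hF (hrest.mono hsub1)
        rcases hZ with hZ | hZ
        · exact iha ((show Sub a (.sup a b) from Or.inr (Or.inl (Sub.refl a))).trans hsu)
            (fun h => hnd (.supR1 h)) ((hX.left_sup a b).trans hsub) Z (hX.conn a hZ) hcZ hF' hZ
        · exact ihb ((show Sub b (.sup a b) from Or.inr (Or.inr (Sub.refl b))).trans hsu)
            (fun h => hnd (.supR2 h)) ((hX.right_sup a b).trans hsub) Z (hX.conn b hZ) hcZ hF' hZ
      | inf a b _ _ =>
        intro hsu hnd hsub Y hY hc hF hmem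
        obtain ⟨Z, hZ, hcZ, hZY, hrest⟩ := (hmem.2).extract hc
        have hop : op (SG R) (ev (SG R) (SX R s) a ∩ ev (SG R) (SX R s) b) ⊆
            ev (SG R) (SX R s) (.inf a b) := subset_cl (fun P hP => hP.1)
        have hF' := hrem Y Z hcZ hZY hF (hrest.mono (hop.trans hsub))
        obtain ⟨τ, hτ, hτd⟩ := exists_mtd hnd
        have hτu : Sub τ u := hτ.sub.trans hsu
        have hτL : τ ∈ L := hL2 u hu τ hτu hτ.nonInf hτd
        have hτc : code τ < code u := by
          have h2 : code τ < code (.inf a b) := by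
            rcases hτ with h | h
            · have := h.sub.code_le
              have h3 := Nat.left_le_pair (code a) (code b)
              simp only [code]; omega
            · have := h.sub.code_le
              have h3 := Nat.right_le_pair (code a) (code b)
              simp only [code]; omega
          exact lt_of_lt_of_le h2 hsu.code_le
        have hZconn : Conn (SG R) Z := hZ.1
        have hne : (base Z).Nonempty := ⟨(), hcZ⟩
        -- the pair property in each part
        have hpair : ∀ j, T j τ ⊆ part Z j ∧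
            DU {P | Conn (R j).G P ∧ P ∉ ev (R j).G (R j).X u} (part Z j \ T j τ) := by
          intro j
          have hpne : (part Z j).Nonempty := by
            by_contra hcon
            rw [Set.not_nonempty_iff_eq_empty] at hcon
            refine hfull Z hZconn hcZ hF' j ?_
            rw [hcon]
            exact .empty
          exact (hgood j).2.2.1 u hu τ hτL hτc huN (part Z j) (hF' j).1
            (conn_part hZconn hpne) (gate_base hZconn hpne hne).1 (hF' j).2
        -- the small set
        let Q : Set (SV R) := Sum.inl '' Set.univ ∪ ⋃ j, inB j '' T j τ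
        have hQc : Sum.inl () ∈ Q := Or.inl ⟨(), trivial, rfl⟩
        have hQconn : Conn (SG R) Q := by
          refine conn_mk (conn_univ_unit _) (fun j _ => ?_)
          obtain ⟨h1, h2, _⟩ := (hgood j).2.1 τ hτL (hτc.trans huN)
          exact ⟨h2, h1, trivial⟩
        have hQpart : ∀ j, part Q j = T j τ := fun j => part_mk _ _ j
        have hQn : Q ∉ ev (SG R) (SX R s) τ := by
          refine IHM τ hτL (hτc.trans huN) (by omega) Q hQconn hQc (fun j => ?_)
          rw [hQpart j]
          refine ⟨le_rfl, ?_⟩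
          rw [Set.sdiff_self]
          exact .empty
        have hZZ : Z ∈ op (SG R)
            (op (SG R) (ev (SG R) (SX R s) a ∩ ev (SG R) (SX R s) b)) := op_op hZ
        apply hZZ.2
        have hZdec : Z = Q ∪ ⋃ j, inB j '' (part Z j \ T j τ) := by
          ext x
          constructor
          · intro hx
            rcases x with ⟨⟩ | ⟨j, b⟩
            · exact Or.inl hQc
            · by_cases hb : b ∈ T j τ
              · exact Or.inl (Or.inr (Set.mem_iUnion.2 ⟨j, b, hb, rfl⟩))
              · exact Or.inr (Set.mem_iUnion.2 ⟨j, b, ⟨hx, hb⟩, rfl⟩)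
          · rintro ((⟨⟨⟩, _, rfl⟩ | h) | h)
            · exact hcZ
            · obtain ⟨j, b, hb, rfl⟩ := Set.mem_iUnion.1 h
              exact (hpair j).1 hb
            · obtain ⟨j, b, hb, rfl⟩ := Set.mem_iUnion.1 h
              exact hb.1
        rw [hZdec]
        refine DU.union (DU.single ⟨hQconn, fun h => hQn ?_⟩)
          (DU.iUnion _ (fun j => ?_)
            (fun i j hij => disjoint_inB (fun j => part Z j \ T j τ) hij)) ?_
        · exact hX.mtd (show Mtd τ (.inf a b) from hτ) (hop h)
        · refine (hpair j).2.image _ (inB_inj j) ?_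
          rintro P ⟨hP, hPu⟩ _
          refine ⟨(conn_inB (K := fun j => (R j).G) j P).2 hP, fun h => hPu ?_⟩
          have h2 := hsub (hop h)
          rw [ev_off s u (root_notMem_inB _)] at h2
          exact (inB_mem_star hP).1 h2
        · rw [Set.disjoint_left]
          rintro x (⟨_, _, rfl⟩ | h) h'
          · obtain ⟨j, b, _, hb⟩ := Set.mem_iUnion.1 h'
            exact Sum.inr_ne_inl hb
          · obtain ⟨j, b, hb, rfl⟩ := Set.mem_iUnion.1 h
            obtain ⟨i, b', hb', hbb⟩ := Set.mem_iUnion.1 h'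
            have h3 := Sum.inr_injective hbb
            rw [Sigma.mk.injEq] at h3
            obtain ⟨rfl, h3⟩ := h3
            rw [heq_eq_eq] at h3
            rw [h3] at hb'
            exact hb'.2 hb
    exact key u (Sub.refl u) (hL u hu).2 le_rfl

end Star

/-- `s ≤ t` fails at a rooted graph. -/
def RFails (s t : LTerm) : Prop :=
  ∃ R : Rooted, Pos {s} R ∧ Set.univ ∉ ev R.G R.X t

lemma star_step (s t : LTerm) (ht : NonInf t) (hst : ¬ Der s t)
    (IH : ∀ σ, Mtd σ s → (∃ a b, σ = .sup a b) → ∀ u, ¬ Der σ u → RFails σ u) :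
    RFails s t := by
  classical
  let J : Type := Option {σ : LTerm // Mtd σ s ∧ ∃ a b, σ = .sup a b}
  have hJ0 : Finite {σ : LTerm // Mtd σ s ∧ ∃ a b, σ = .sup a b} :=
    ((finite_sub s).subset (fun _ h => h.1.sub)).to_subtype
  have hJ : Finite J := inferInstance
  let L : Set LTerm := {u | Sub u t ∧ NonInf u ∧ ¬ Der s u}
  have hch : ∀ j : J, ∃ (R : Rooted) (T : LTerm → Set R.V),
      (∀ σ, j = some σ → Pos {σ.1} R) ∧ Good L (code t + 1) R T := by
    intro j
    rcases j with _ | σ
    · obtain ⟨R, T, _, h⟩ := chain ∅ L (fun u _ => ⟨dummy, fun Z _ _ σ hσ => absurd hσ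
        (Set.notMem_empty _), by
          change Set.univ ∉ ev (⊥ : SimpleGraph Unit) (fun _ => (∅ : Set (Set Unit))) u
          rw [ev_empty]
          exact Set.notMem_empty _⟩) (code t + 1)
      exact ⟨R, T, fun σ hσ => absurd hσ (by simp), h⟩
    · obtain ⟨R, T, h1, h2⟩ := chain {σ.1} L (fun u hu =>
        IH σ.1 σ.2.1 σ.2.2 u (fun h => hu.2.2 (σ.2.1.der h))) (code t + 1)
      refine ⟨R, T, fun σ' hσ' => ?_, h2⟩
      rw [← Option.some_injective _ hσ']
      exact h1
  choose R T hpos hgood using hch
  have htL : t ∈ L := ⟨Sub.refl t, ht, hst⟩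
  refine ⟨{ V := SV R
            fin := by
              have := fun j => (R j).fin
              infer_instance
            G := SG R
            r := Sum.inl ()
            X := SX R s
            reg := reg_SX s
            conn := by
              have h : (Set.univ : Set (SV R)) =
                  Sum.inl '' Set.univ ∪ ⋃ i, inB i '' Set.univ := by
                rw [decomp (Set.univ : Set (SV R))]
                rfl
              rw [h]
              exact conn_mk (conn_univ_unit _) (fun j _ => ⟨(R j).conn, trivial, trivial⟩)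
            acyc := acyc_attach acyc_bot (fun j => (R j).acyc) },
    ?_, ?_⟩
  · intro Z hZ hc σ hσ
    rw [Set.mem_singleton_iff] at hσ
    subst hσ
    exact star_pos (fun τ hτ hτ' => ⟨some ⟨τ, hτ, hτ'⟩, hpos _ _ rfl⟩) hZ hc
  · have hTuniv : ∀ j, T j t = Set.univ := fun j => (hgood j).2.2.2 t htL rfl
    refine star_neg T hgood (fun u hu => hu.2) (fun u hu v hv h1 h2 => ⟨hv.trans hu.1, h1, h2⟩)
      (code t + 1) t htL (Nat.lt_succ_self _) (Nat.lt_succ_self _) Set.univ ?_ trivial
      (fun j => ?_)
    · have h : (Set.univ : Set (SV R)) =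
          Sum.inl '' Set.univ ∪ ⋃ i, inB i '' Set.univ := by
        rw [decomp (Set.univ : Set (SV R))]
        rfl
      rw [h]
      exact conn_mk (conn_univ_unit _) (fun j _ => ⟨(R j).conn, trivial, trivial⟩)
    · rw [hTuniv j]
      refine ⟨Set.subset_univ _, ?_⟩
      have : (Set.univ : Set (R j).V) \ part (Set.univ : Set (SV R)) j = ∅ := by
        apply Set.eq_empty_of_forall_notMem
        rintro b ⟨_, hb⟩
        exact hb trivial
      rw [this]
      exact .empty

lemma rfails_mono_left {a s t : LTerm}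
    (h : ∀ R : Rooted, ev R.G R.X a ⊆ ev R.G R.X s) (hf : RFails a t) : RFails s t := by
  obtain ⟨R, h1, h2⟩ := hf
  refine ⟨R, fun Z hZ hr σ hσ => ?_, h2⟩
  rw [Set.mem_singleton_iff] at hσ
  subst hσ
  exact h R (h1 Z hZ hr a rfl)

lemma rfails_mono_right {s a t : LTerm}
    (h : ∀ R : Rooted, ev R.G R.X t ⊆ ev R.G R.X a) (hf : RFails s a) : RFails s t := by
  obtain ⟨R, h1, h2⟩ := hf
  exact ⟨R, h1, fun h3 => h2 (h R h3)⟩

theorem rfails_of_not_der : ∀ (N : ℕ) (s : LTerm), code s = N → ∀ t, ¬ Der s t →
    RFails s t := by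
  intro N
  induction N using Nat.strong_induction_on with
  | _ N IH =>
    intro s hs t
    by_cases hsup : ∃ a b, s = .sup a b
    · obtain ⟨a, b, rfl⟩ := hsup
      intro hst
      by_cases ha : Der a t
      · have hb : ¬ Der b t := fun hb => hst (.supL ha hb)
        have hc : code b < N := by
          have h2 := Nat.right_le_pair (code a) (code b)
          simp only [code] at hs; omega
        exact rfails_mono_left (fun R => R.reg.right_sup a b) (IH _ hc b rfl t hb)
      · have hc : code a < N := by
          have h2 := Nat.left_le_pair (code a) (code b)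
          simp only [code] at hs; omega
        exact rfails_mono_left (fun R => R.reg.left_sup a b) (IH _ hc a rfl t ha)
    · induction t with
      | var n =>
        intro hst
        refine star_step s (.var n) trivial hst ?_
        rintro σ hσ ⟨a, b, rfl⟩ u hu
        refine IH (code (.sup a b)) ?_ _ rfl u hu
        have h1 := hσ.sub.code_le
        have h2 : code (.sup a b) ≠ code s := fun h => hsup ⟨a, b, (code_inj h).symm⟩
        omega
      | sup c d _ _ =>
        intro hst
        refine star_step s (.sup c d) trivial hst ?_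
        rintro σ hσ ⟨a, b, rfl⟩ u hu
        refine IH (code (.sup a b)) ?_ _ rfl u hu
        have h1 := hσ.sub.code_le
        have h2 : code (.sup a b) ≠ code s := fun h => hsup ⟨a, b, (code_inj h).symm⟩
        omega
      | inf c d ihc ihd =>
        intro hst
        by_cases hc : Der s c
        · have hd : ¬ Der s d := fun hd => hst (.infR hc hd)
          exact rfails_mono_right (fun R => R.reg.inf_right c d) (ihd hd)
        · exact rfails_mono_right (fun R => R.reg.inf_left c d) (ihc hc)

end Pool.Agent.H19.GR
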